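import Pool.Agent.W862.LE.Four

/-!
# Graphs with a free action of a `p`-group with four orbits
-/

set_option autoImplicit false

namespace Pool.Agent.W862.LE

open Finset Pool.Agent.W426.LE

open Classical in
theorem four_orbits {V P : Type} [Fintype V] [Group P] [Fintype P] [MulAction P V] (p : ℕ)
    [Fact p.Prime] (hP : IsPGroup p P) (G : SimpleGraph V)
    (hG : ∀ (a : P) (u v : V), G.Adj (a • u) (a • v) ↔ G.Adj u v)
    (hfree : ∀ (a : P) (v : V), a • v = v → a = 1)
    (hind : ∀ (a : P) (v : V), ¬ G.Adj v (a • v))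
    (hV : Fintype.card V = 4 * Fintype.card P) (d : ℕ) (hd : ∀ v, G.degree v = d) (hdp : d < p) :
    EL.EL G d := by
  let Ω : Type := MulAction.orbitRel.Quotient P V
  let r : Ω → V := Quotient.out
  have hr : ∀ ω : Ω, (Quotient.mk _ (r ω) : Ω) = ω := fun ω => Quotient.out_eq ω
  have hmk : ∀ (a : P) (v : V), (Quotient.mk _ (a • v) : Ω) = Quotient.mk _ v := by
    intro a v
    exact Quotient.sound (MulAction.orbitRel_apply.2 ⟨a, rfl⟩)
  let F : Ω × P → V := fun q => q.2 • r q.1
  have hFinj : Function.Injective F := by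
    rintro ⟨ω, a⟩ ⟨ω', a'⟩ h
    have h' : a • r ω = a' • r ω' := h
    have h1 : ω = ω' :=
      (hr ω).symm.trans ((hmk a (r ω)).symm.trans
        ((congrArg (Quotient.mk _) h').trans ((hmk a' (r ω')).trans (hr ω'))))
    subst h1
    have h2 : (a'⁻¹ * a) • r ω = r ω := by rw [mul_smul, h', inv_smul_smul]
    have h3 := hfree _ _ h2
    have h4 : a = a' := by
      rw [inv_mul_eq_one] at h3
      exact h3.symm
    rw [h4]
  have hFsurj : Function.Surjective F := by
    intro v
    have h1 : (Quotient.mk _ (r (Quotient.mk _ v)) : Ω) = Quotient.mk _ v := hr _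
    have h2 : MulAction.orbitRel P V v (r (Quotient.mk _ v)) := Quotient.exact h1.symm
    obtain ⟨a, ha⟩ := MulAction.orbitRel_apply.1 h2
    exact ⟨(Quotient.mk _ v, a), ha⟩
  have hPpos : 0 < Fintype.card P := Fintype.card_pos
  have hΩfin : Finite Ω := Finite.of_surjective (fun v : V => (Quotient.mk _ v : Ω)) (fun ω => ⟨r ω, hr ω⟩)
  let _ : Fintype Ω := Fintype.ofFinite Ω
  have hcΩ : Fintype.card KK = Fintype.card Ω := by
    have h1 := Fintype.card_of_bijective (⟨hFinj, hFsurj⟩ : Function.Bijective F)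
    rw [Fintype.card_prod, hV] at h1
    have h2 := Nat.eq_of_mul_eq_mul_right hPpos h1
    rw [h2, Fintype.card_option, Fintype.card_fin]
  let eΩ : KK ≃ Ω := Fintype.equivOfCardEq hcΩ
  let Θ0 : KK × P → V := fun q => q.2 • r (eΩ q.1)
  have hΘ : Function.Bijective Θ0 := by
    constructor
    · rintro ⟨κ, a⟩ ⟨κ', a'⟩ h
      have h1 := @hFinj (eΩ κ, a) (eΩ κ', a') h
      rw [Prod.mk.injEq] at h1
      exact Prod.ext (eΩ.injective h1.1) h1.2
    · intro v
      obtain ⟨⟨ω, a⟩, h⟩ := hFsurj v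
      refine ⟨(eΩ.symm ω, a), ?_⟩
      show a • r (eΩ (eΩ.symm ω)) = v
      rw [Equiv.apply_symm_apply]
      exact h
  let Θ : KK × P ≃ V := Equiv.ofBijective Θ0 hΘ
  have hΘs : ∀ (κ : KK) (g : P), Θ (κ, g) = g • r (eΩ κ) := fun _ _ => rfl
  have hadj : ∀ u v, (G.comap Θ).Adj u v ↔ G.Adj (Θ u) (Θ v) := fun _ _ => Iff.rfl
  refine EL.mono G (G.comap Θ) Θ.symm Θ.symm.injective ?_ d ?_
  · intro u v h
    rw [hadj, Equiv.apply_symm_apply, Equiv.apply_symm_apply]
    exact h
  · refine four_aux (G.comap Θ) ?_ ?_ p hP d ?_ hdp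
    · intro a g g' κ κ'
      rw [hadj, hadj, hΘs, hΘs, hΘs, hΘs, mul_smul, mul_smul, hG]
    · intro κ g g'
      rw [hadj, hΘs, hΘs]
      have h1 : g' • r (eΩ κ) = (g' * g⁻¹) • (g • r (eΩ κ)) := by
        rw [mul_smul, inv_smul_smul]
      rw [h1]
      exact hind _ _
    · intro v
      rw [← hd (Θ v), ← SimpleGraph.card_neighborSet_eq_degree,
        ← SimpleGraph.card_neighborSet_eq_degree]
      refine Fintype.card_congr
        { toFun := fun w => ⟨Θ w.1, w.2⟩
          invFun := fun w => ⟨Θ.symm w.1, ?_⟩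
          left_inv := fun w => Subtype.ext (Equiv.symm_apply_apply Θ _)
          right_inv := fun w => Subtype.ext (Equiv.apply_symm_apply Θ _) }
      have h2 : G.Adj (Θ v) w.1 := w.2
      show (G.comap Θ).Adj v (Θ.symm w.1)
      rw [hadj, Equiv.apply_symm_apply]
      exact h2

end Pool.Agent.W862.LE
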