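import Pool.Agent.W862.LE.Fix
import Pool.Agent.W426.LE.EL

/-!
# Colourings invariant under a `p`-group, the factors may be permuted
-/

set_option autoImplicit false

namespace Pool.Agent.W862.LE.Abs

open Finset Pool.Agent.W426.LE

section
variable {V E D C : Type} (ρ : D ≃ C) (inc : V → D → E)

/-- proper colourings -/
def Prp (x : E → C) : Prop := ∀ v, Function.Bijective (fun i => x (inc v i))

/-- product of the signs -/
noncomputable def wt [Fintype V] [Fintype D] (x : E → C) : ℤ := ∏ v, sg ρ (fun i => x (inc v i))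

lemma wt_ne_zero_iff [Fintype V] [Fintype D] (x : E → C) : wt ρ inc x ≠ 0 ↔ Prp inc x := by
  unfold wt
  rw [Finset.prod_ne_zero_iff]
  constructor
  · intro h v
    exact (sg_ne_zero_iff _ _).1 (h v (mem_univ v))
  · intro h v _
    exact (sg_ne_zero_iff _ _).2 (h v)

lemma wt_unit [Fintype V] [Fintype D] (x : E → C) (hx : Prp inc x) : IsUnit (wt ρ inc x) := by
  unfold wt
  refine IsUnit.prod_univ_iff.2 fun v => ?_
  rcases sg_eq ρ _ (hx v) with h | h
  · rw [h]; exact isUnit_one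
  · rw [h]; exact isUnit_one.neg

/-- the permutation of the colours at the vertex `v0` -/
noncomputable def piAt (v0 : V) (y : E → C) (hy : Prp inc y) : Equiv.Perm C :=
  ρ.symm.trans (Equiv.ofBijective (fun i => y (inc v0 i)) (hy v0))

lemma piAt_apply (v0 : V) (y : E → C) (hy : Prp inc y) (i : D) :
    piAt ρ inc v0 y hy (ρ i) = y (inc v0 i) := by
  show y (inc v0 (ρ.symm (ρ i))) = _
  rw [ρ.symm_apply_apply]

/-- normalised proper colourings -/
abbrev XN (v0 : V) : Type := {x : E → C // Prp inc x ∧ ∀ i, x (inc v0 i) = ρ i}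

variable (v0 : V)

lemma prp_comp (y : E → C) (hy : Prp inc y) (σ : Equiv.Perm C) :
    Prp inc (fun e => σ (y e)) := fun v => σ.bijective.comp (hy v)

/-- normalisation -/
noncomputable def nrm (y : E → C) (hy : Prp inc y) : XN ρ inc v0 :=
  ⟨fun e => (piAt ρ inc v0 y hy).symm (y e), prp_comp inc y hy _, fun i =>
    (Equiv.symm_apply_eq _).2 (piAt_apply ρ inc v0 y hy i).symm⟩

lemma nrm_unique (y : E → C) (hy : Prp inc y) (z : XN ρ inc v0)
    (h : ∃ σ : Equiv.Perm C, ∀ e, z.1 e = σ (y e)) : nrm ρ inc v0 y hy = z := by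
  obtain ⟨σ, hσ⟩ := h
  refine Subtype.ext (funext fun e => ?_)
  show (piAt ρ inc v0 y hy).symm (y e) = z.1 e
  rw [hσ, Equiv.symm_apply_eq]
  have h1 := z.2.2 (ρ.symm (σ (y e)))
  rw [hσ, ρ.apply_symm_apply] at h1
  have h2 := σ.injective h1
  have h3 := piAt_apply ρ inc v0 y hy (ρ.symm (σ (y e)))
  rw [h2, ρ.apply_symm_apply] at h3
  exact h3.symm

lemma nrm_spec (y : E → C) (hy : Prp inc y) :
    ∃ σ : Equiv.Perm C, ∀ e, (nrm ρ inc v0 y hy).1 e = σ (y e) :=
  ⟨(piAt ρ inc v0 y hy).symm, fun _ => rfl⟩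

variable [Fintype V] [Fintype E] [Fintype D] [Fintype C]

open Classical in
/-- even number of vertices -/
lemma even_card (h2 : ∀ e, Nat.card {q : V × D // inc q.1 q.2 = e} = 2)
    (x : E → C) (hb : Prp inc x) (c : C) : Even (Fintype.card V) := by
  have e1 : ∀ v : V, ∑ i : D, (if x (inc v i) = c then 1 else 0 : ℕ) = 1 := by
    intro v
    obtain ⟨i, hi⟩ := (hb v).2 c
    rw [Finset.sum_eq_single i]
    · have : x (inc v i) = c := hi
      rw [if_pos this]
    · intro j _ hj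
      rw [if_neg]
      intro h
      exact hj ((hb v).1 (h.trans hi.symm))
    · intro h
      exact (h (mem_univ _)).elim
  have e2 : Fintype.card V = ∑ q : V × D, (if x (inc q.1 q.2) = c then 1 else 0 : ℕ) := by
    rw [Fintype.sum_prod_type]
    rw [Finset.sum_congr rfl fun v _ => e1 v, Finset.sum_const, smul_eq_mul, mul_one]
    rfl
  have e3 : ∑ q : V × D, (if x (inc q.1 q.2) = c then 1 else 0 : ℕ) =
      ∑ e : E, ∑ q ∈ univ.filter (fun q : V × D => inc q.1 q.2 = e),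
        (if x (inc q.1 q.2) = c then 1 else 0 : ℕ) := by
    rw [← Finset.sum_fiberwise univ (fun q : V × D => inc q.1 q.2)]
  rw [e2, e3]
  refine Finset.sum_induction _ Even (fun a b ha hb => ha.add hb) Even.zero ?_
  intro e _
  have e4 : ∑ q ∈ univ.filter (fun q : V × D => inc q.1 q.2 = e),
        (if x (inc q.1 q.2) = c then 1 else 0 : ℕ) =
      ∑ q ∈ univ.filter (fun q : V × D => inc q.1 q.2 = e), (if x e = c then 1 else 0 : ℕ) := by
    refine Finset.sum_congr rfl fun q hq => ?_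
    rw [(mem_filter.1 hq).2]
  have e5 := h2 e
  rw [Nat.card_eq_fintype_card, Fintype.card_subtype] at e5
  rw [e4, Finset.sum_const, smul_eq_mul, e5]
  exact even_two_mul _

variable {P : Type} [Group P] [Fintype P] [MulAction P V] [MulAction P E]
variable (h2 : ∀ e, Nat.card {q : V × D // inc q.1 q.2 = e} = 2)
  (hτ : ∀ (a : P) (v : V), ∃ τ : Equiv.Perm D, ∀ i, inc (a • v) (τ i) = a • inc v i)

omit [Fintype E] [Fintype C] [Fintype P] in
include hτ in
open Classical in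
lemma wt_act (a : P) : ∃ ε : ℤ, ∀ x : E → C,
    wt ρ inc (fun e => x (a⁻¹ • e)) = ε * wt ρ inc x := by
  choose τ hτ using fun v => hτ a⁻¹ v
  refine ⟨∏ v, ((Equiv.Perm.sign (τ v) : ℤˣ) : ℤ), fun x => ?_⟩
  unfold wt
  have e1 : ∀ v, sg ρ (fun i => x (a⁻¹ • (inc v i))) =
      ((Equiv.Perm.sign (τ v) : ℤˣ) : ℤ) * sg ρ (fun i => x (inc (a⁻¹ • v) i)) := by
    intro v
    have e2 : (fun i => x (a⁻¹ • (inc v i))) =
        fun i => (fun i => x (inc (a⁻¹ • v) i)) (τ v i) := by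
      funext i
      show x (a⁻¹ • (inc v i)) = x (inc (a⁻¹ • v) (τ v i))
      rw [hτ]
    have hs' : ∀ (i1 i2 : DecidableEq D) (τ : Equiv.Perm D),
        @Equiv.Perm.sign _ i1 _ τ = @Equiv.Perm.sign _ i2 _ τ := fun i1 i2 τ => by
      rw [Subsingleton.elim i1 i2]
    have e3 := sg_comp_perm ρ (fun i => x (inc (a⁻¹ • v) i)) (τ v)
    exact ((congrArg (sg ρ) e2).trans e3).trans
      (congrArg (fun u : ℤˣ => (u : ℤ) * sg ρ (fun i => x (inc (a⁻¹ • v) i)))
      (hs' _ _ _))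
  simp_rw [e1]
  rw [Finset.prod_mul_distrib]
  congr 1
  exact Fintype.prod_equiv (MulAction.toPerm a⁻¹) _ _ fun v => rfl

omit [Fintype E] [Fintype C] [Fintype P] in
include ρ hτ in
lemma prp_act (a : P) (x : E → C) (hx : Prp inc x) : Prp inc (fun e => x (a⁻¹ • e)) := by
  have hx' := (wt_ne_zero_iff ρ inc x).2 hx
  suffices h7 : wt ρ inc (fun e => x (a⁻¹ • e)) ≠ 0 from (wt_ne_zero_iff ρ inc _).1 h7
  intro h0
  apply hx'
  obtain ⟨ε, hε⟩ := wt_act ρ inc hτ a⁻¹
  have h4 := hε (fun e => x (a⁻¹ • e))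
  rw [h0, mul_zero] at h4
  rw [← h4]
  congr 1
  funext e
  show x e = x (a⁻¹ • (a⁻¹⁻¹ • e))
  rw [inv_inv, inv_smul_smul]

omit [Group P] [Fintype P] [MulAction P V] [MulAction P E] in
include h2 in
open Classical in
lemma wt_perm (x0 : E → C) (hx0 : Prp inc x0) (σ : Equiv.Perm C) :
    wt ρ inc (fun e => σ (x0 e)) = wt ρ inc x0 := by
  rcases isEmpty_or_nonempty C with h0 | hd
  · congr 1
    funext e
    exact isEmptyElim (x0 e)
  · have heven : Even (Fintype.card V) := even_card inc h2 x0 hx0 (Classical.arbitrary C)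
    have key : ∃ δ : ℤ, (δ = 1 ∨ δ = -1) ∧ ∀ f : D → C,
        sg ρ (fun i => σ (f i)) = δ * sg ρ f := by
      refine ⟨_, ?_, fun f => sg_perm_comp ρ f σ⟩
      rcases Int.units_eq_one_or (@Equiv.Perm.sign _ (fun a b => propDecidable (a = b)) _ σ)
        with h | h
      · left; rw [h]; rfl
      · right; rw [h]; rfl
    obtain ⟨δ, hδ1, hδ⟩ := key
    have e1 : wt ρ inc (fun e => σ (x0 e)) = (∏ _v : V, δ) * wt ρ inc x0 := by
      unfold wt
      rw [← Finset.prod_mul_distrib]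
      exact Finset.prod_congr rfl fun v _ => hδ _
    rw [e1, Finset.prod_const]
    have e2 : δ ^ (univ : Finset V).card = 1 := by
      rcases hδ1 with h | h
      · rw [h, one_pow]
      · rw [h]
        exact heven.neg_one_pow
    rw [e2, one_mul]

open Classical in
noncomputable instance : Fintype (XN ρ inc v0) := inferInstance

omit [Group P] [Fintype P] [MulAction P V] [MulAction P E] in
include h2 in
open Classical in
/-- labelled and normalised -/
lemma NN_eq : NN ρ inc = (Fintype.card C).factorial * ∑ z : XN ρ inc v0, wt ρ inc z.1 := by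
  have e1 : NN ρ inc = ∑ x : E → C, wt ρ inc x := by
    unfold NN
    refine Finset.sum_congr ?_ fun x _ => rfl
    ext x
    simp only [mem_univ]
  have e2 : ∑ q : Equiv.Perm C × XN ρ inc v0, wt ρ inc (fun e => q.1 (q.2.1 e)) =
      ∑ x : E → C, wt ρ inc x := by
    refine Finset.sum_of_injOn (fun q : Equiv.Perm C × XN ρ inc v0 => fun e => q.1 (q.2.1 e))
      ?_ ?_ ?_ ?_
    · rintro ⟨σ, z⟩ _ ⟨σ', z'⟩ _ h
      have h' : ∀ e, σ (z.1 e) = σ' (z'.1 e) := fun e => congrFun h e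
      have hσ : σ = σ' := by
        refine Equiv.ext fun c => ?_
        have h4 := h' (inc v0 (ρ.symm c))
        rwa [z.2.2, z'.2.2, ρ.apply_symm_apply] at h4
      subst hσ
      have hz : z = z' := Subtype.ext (funext fun e => σ.injective (h' e))
      rw [hz]
    · intro q _
      exact mem_coe.2 (mem_univ _)
    · intro x _ hx
      by_contra hne
      have hp : Prp inc x := (wt_ne_zero_iff ρ inc x).1 hne
      refine hx ⟨(piAt ρ inc v0 x hp, nrm ρ inc v0 x hp), mem_coe.2 (mem_univ _), ?_⟩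
      funext e
      exact (piAt ρ inc v0 x hp).apply_symm_apply _
    · intro q _
      rfl
  rw [e1, ← e2, Fintype.sum_prod_type]
  have e3 : ∀ σ : Equiv.Perm C, ∑ z : XN ρ inc v0, wt ρ inc (fun e => σ (z.1 e)) =
      ∑ z : XN ρ inc v0, wt ρ inc z.1 := fun σ =>
    Finset.sum_congr rfl fun z _ => wt_perm ρ inc h2 z.1 z.2.1 σ
  rw [Finset.sum_congr rfl fun σ _ => e3 σ, Finset.sum_const, Finset.card_univ, Fintype.card_perm,
    nsmul_eq_mul]

include h2 hτ in
open Classical in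
/-- the signed number of all 1-factorizations is congruent to that of the invariant ones -/
theorem unl_mod (p : ℕ) [Fact p.Prime] (hP : IsPGroup p P) :
    ((∑ z : XN ρ inc v0, wt ρ inc z.1 : ℤ) : ZMod p) =
      ((∑ x ∈ univ.filter (fun x : E → C => (∀ i, x (inc v0 i) = ρ i) ∧
        ∀ a : P, ∃ σ : Equiv.Perm C, ∀ e : E, x (a • e) = σ (x e)), wt ρ inc x : ℤ) : ZMod p) := by
  rw [Int.cast_sum, Int.cast_sum]
  obtain ⟨k, hk⟩ := IsPGroup.iff_card.1 hP
  rw [Nat.card_eq_fintype_card] at hk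
  let A : MulAction P (XN ρ inc v0) :=
    { smul := fun a x => nrm ρ inc v0 _ (prp_act ρ inc hτ a x.1 x.2.1)
      one_smul := fun x => by
        refine nrm_unique ρ inc v0 _ _ x ⟨1, fun e => ?_⟩
        show x.1 e = x.1 ((1 : P)⁻¹ • e)
        rw [inv_one, one_smul]
      mul_smul := fun a b x => by
        refine nrm_unique ρ inc v0 _ _ _ ?_
        obtain ⟨σ, hσ⟩ := nrm_spec ρ inc v0 _ (prp_act ρ inc hτ b x.1 x.2.1)
        obtain ⟨τ, hτ'⟩ := nrm_spec ρ inc v0 _ (prp_act ρ inc hτ a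
          (nrm ρ inc v0 _ (prp_act ρ inc hτ b x.1 x.2.1)).1
          (nrm ρ inc v0 _ (prp_act ρ inc hτ b x.1 x.2.1)).2.1)
        refine ⟨τ * σ, fun e => ?_⟩
        have e1 := hτ' e
        rw [hσ] at e1
        rw [mul_inv_rev, mul_smul]
        exact e1 }
  have hsm : ∀ (a : P) (x : XN ρ inc v0), ∃ σ : Equiv.Perm C, ∀ e,
      (a • x).1 e = σ (x.1 (a⁻¹ • e)) := fun a x =>
    nrm_spec ρ inc v0 _ (prp_act ρ inc hτ a x.1 x.2.1)
  have hwt : ∀ (a : P) (x : XN ρ inc v0), wt ρ inc (a • x).1 =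
      wt ρ inc (fun e => x.1 (a⁻¹ • e)) := by
    intro a x
    obtain ⟨σ, hσ⟩ := hsm a x
    have e1 : (a • x).1 = fun e => σ ((fun e => x.1 (a⁻¹ • e)) e) := funext hσ
    rw [e1]
    exact wt_perm ρ inc h2 _ (prp_act ρ inc hτ a x.1 x.2.1) σ
  have hpow : ∀ (a : P) (ε : ℤ), (∀ x : XN ρ inc v0, wt ρ inc (a • x).1 = ε * wt ρ inc x.1) →
      ∀ (n : ℕ) (x : XN ρ inc v0), wt ρ inc (a ^ n • x).1 = ε ^ n * wt ρ inc x.1 := by
    intro a ε hε n
    induction n with
    | zero => intro x; simp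
    | succ n ih =>
      intro x
      rw [pow_succ, mul_smul, ih, hε, pow_succ]
      ring
  have hw : ∀ (a : P) (x : XN ρ inc v0),
      ((wt ρ inc (a • x).1 : ℤ) : ZMod p) = ((wt ρ inc x.1 : ℤ) : ZMod p) := by
    intro a x
    obtain ⟨ε, hε⟩ := wt_act (C := C) ρ inc hτ a
    have hε' : ∀ x : XN ρ inc v0, wt ρ inc (a • x).1 = ε * wt ρ inc x.1 := fun x =>
      (hwt a x).trans (hε x.1)
    have e1 := hpow a ε hε' (p ^ k) x
    have e2 : a ^ (p ^ k) = 1 := by rw [← hk]; exact pow_card_eq_one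
    rw [e2, one_smul] at e1
    have e3 : ((wt ρ inc x.1 : ℤ) : ZMod p) = (ε : ZMod p) * ((wt ρ inc x.1 : ℤ) : ZMod p) := by
      have := congrArg (fun z : ℤ => (z : ZMod p)) e1
      simp only [Int.cast_mul, Int.cast_pow] at this
      rwa [ZMod.pow_card_pow] at this
    rw [hε', Int.cast_mul]
    exact e3.symm
  have e5 := sum_fixed' p hP (fun x : XN ρ inc v0 => ((wt ρ inc x.1 : ℤ) : ZMod p)) hw
    (univ.filter (fun x : XN ρ inc v0 => ∀ a : P, a • x = x)) (fun x => by simp)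
  rw [e5]
  refine Finset.sum_of_injOn (fun z : XN ρ inc v0 => z.1) ?_ ?_ ?_ ?_
  · intro z _ z' _ h
    exact Subtype.ext h
  · intro z hz
    refine mem_coe.2 (mem_filter.2 ⟨mem_univ _, z.2.2, fun a => ?_⟩)
    have h4 := (mem_filter.1 (mem_coe.1 hz)).2 a⁻¹
    obtain ⟨σ, hσ⟩ := hsm a⁻¹ z
    refine ⟨σ.symm, fun e => ?_⟩
    have h6 := hσ e
    rw [h4, inv_inv] at h6
    show z.1 (a • e) = σ.symm (z.1 e)
    rw [h6]
    exact (σ.symm_apply_apply _).symm
  · intro x hx hx'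
    by_contra hne
    have hne' : wt ρ inc x ≠ 0 := by
      intro h
      rw [h, Int.cast_zero] at hne
      exact hne rfl
    have hp : Prp inc x := (wt_ne_zero_iff ρ inc x).1 hne'
    refine hx' ⟨⟨x, hp, (mem_filter.1 hx).2.1⟩, mem_coe.2 (mem_filter.2 ⟨mem_univ _, fun a => ?_⟩), rfl⟩
    refine nrm_unique ρ inc v0 _ _ _ ?_
    obtain ⟨σ, hσ⟩ := (mem_filter.1 hx).2.2 a⁻¹
    refine ⟨σ.symm, fun e => ?_⟩
    show x e = σ.symm (x (a⁻¹ • e))
    rw [hσ, σ.symm_apply_apply]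
  · intro z _
    rfl

include h2 hτ in
open Classical in
/-- the criterion -/
theorem unl_NN (p : ℕ) [Fact p.Prime] (hP : IsPGroup p P)
    (h : ¬ ((p : ℤ) ∣ ∑ x ∈ univ.filter (fun x : E → C => (∀ i, x (inc v0 i) = ρ i) ∧
      ∀ a : P, ∃ σ : Equiv.Perm C, ∀ e : E, x (a • e) = σ (x e)), wt ρ inc x)) :
    NN ρ inc ≠ 0 := by
  have h4 := unl_mod ρ inc v0 h2 hτ p hP
  rw [NN_eq ρ inc v0 h2]
  refine mul_ne_zero (Int.natCast_ne_zero.2 (Nat.factorial_ne_zero _)) ?_
  intro h5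
  apply h
  rw [h5, Int.cast_zero] at h4
  exact (ZMod.intCast_zmod_eq_zero_iff_dvd _ _).1 h4.symm

include h2 hτ in
/-- the criterion with any finite set containing the right proper colourings -/
theorem unl_NN' (p : ℕ) [Fact p.Prime] (hP : IsPGroup p P) (S : Finset (E → C))
    (hS : ∀ x : E → C, Prp inc x → (x ∈ S ↔ ((∀ i, x (inc v0 i) = ρ i) ∧
      ∀ a : P, ∃ σ : Equiv.Perm C, ∀ e : E, x (a • e) = σ (x e))))
    (h : ¬ ((p : ℤ) ∣ ∑ x ∈ S, wt ρ inc x)) :
    NN ρ inc ≠ 0 := by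
  classical
  refine unl_NN ρ inc v0 h2 hτ p hP ?_
  intro h4
  apply h
  have e1 : ∀ T : Finset (E → C), ∑ x ∈ T, wt ρ inc x =
      ∑ x ∈ T.filter (fun x => Prp inc x), wt ρ inc x := by
    intro T
    refine (Finset.sum_filter_of_ne ?_).symm
    intro x _ hx
    exact (wt_ne_zero_iff ρ inc x).1 hx
  rw [e1] at h4 ⊢
  have e2 : S.filter (fun x => Prp inc x) = (univ.filter (fun x : E → C =>
      (∀ i, x (inc v0 i) = ρ i) ∧ ∀ a : P, ∃ σ : Equiv.Perm C, ∀ e : E, x (a • e) = σ (x e))).filter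
      (fun x => Prp inc x) := by
    ext x
    rw [mem_filter, mem_filter, mem_filter]
    constructor
    · rintro ⟨hx, hp⟩
      exact ⟨⟨mem_univ _, (hS x hp).1 hx⟩, hp⟩
    · rintro ⟨⟨-, hx⟩, hp⟩
      exact ⟨(hS x hp).2 hx, hp⟩
  rw [e2]
  exact h4

end

end Pool.Agent.W862.LE.Abs
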