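import Pool.Agent.W862.LE.KP
import Pool.Agent.W337.LE.LEEdge

/-!
# Cocktail party graphs on `p + 1` vertices
-/

set_option autoImplicit false

namespace Pool.Agent.W862.LE.CP

open Finset Pool.Agent.W426.LE Pool.Agent.W862.LE.KP

lemma card_ne {D : Type} [Fintype D] (d0 : D) (i : Fintype {k : D // k ≠ d0}) :
    @Fintype.card {k : D // k ≠ d0} i = Fintype.card D - 1 := by
  classical
  have h1 := Fintype.card_subtype_compl (fun k : D => k = d0)
  rw [Fintype.card_subtype_eq] at h1
  rw [← h1]

open Classical in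
lemma cycleType_inv {W : Type} [Fintype W] [Nonempty W] (a : Equiv.Perm W) (h2 : a * a = 1)
    (hf : ∀ w, a w ≠ w) : a.cycleType = Multiset.replicate (Fintype.card W / 2) 2 := by
  have hne : a ≠ 1 := by
    rintro rfl
    exact hf (Classical.arbitrary W) rfl
  have hord : orderOf a = 2 := orderOf_eq_prime (by rw [pow_two, h2]) hne
  obtain ⟨n, hn⟩ := Equiv.Perm.cycleType_prime_order (σ := a) (by rw [hord]; exact Nat.prime_two)
  rw [hord] at hn
  have h3 := Equiv.Perm.sum_cycleType a
  have h4 : a.support = univ := by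
    ext w
    simp [hf w]
  rw [h4, hn, Multiset.sum_replicate, Finset.card_univ, smul_eq_mul] at h3
  rw [hn, ← h3, Nat.mul_div_cancel _ (by norm_num)]

lemma conj_inv {W V : Type} [Fintype W] [Fintype V] [Nonempty W] (hc : Fintype.card W = Fintype.card V)
    (τ : W → W) (hτ : ∀ w, τ (τ w) = w) (hτ' : ∀ w, τ w ≠ w)
    (μ : V → V) (hμ : ∀ w, μ (μ w) = w) (hμ' : ∀ w, μ w ≠ w) :
    ∃ f : W ≃ V, ∀ w, f (τ w) = μ (f w) := by
  classical
  let e0 : W ≃ V := Fintype.equivOfCardEq hc
  let a : Equiv.Perm W := Function.Involutive.toPerm τ hτ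
  let m : Equiv.Perm V := Function.Involutive.toPerm μ hμ
  let b : Equiv.Perm W := (e0.trans m).trans e0.symm
  have ha : a * a = 1 := Equiv.ext fun w => hτ w
  have hb : b * b = 1 := Equiv.ext fun w => by
    show e0.symm (μ (e0 (e0.symm (μ (e0 w))))) = w
    rw [Equiv.apply_symm_apply, hμ, Equiv.symm_apply_apply]
  have hbf : ∀ w, b w ≠ w := by
    intro w h
    have h' : e0.symm (μ (e0 w)) = w := h
    rw [Equiv.symm_apply_eq] at h'
    exact hμ' _ h'
  have h1 := cycleType_inv a ha hτ'
  have h2 := cycleType_inv b hb hbf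
  have h3 : IsConj a b := Equiv.Perm.isConj_iff_cycleType_eq.2 (by rw [h1, h2])
  obtain ⟨c, hc'⟩ := isConj_iff.1 h3
  refine ⟨c.trans e0, fun w => ?_⟩
  have h4 : c (a w) = b (c w) := by
    have h5 := congrArg (fun q : Equiv.Perm W => q (c w)) hc'
    have h6 : c (a (c.symm (c w))) = b (c w) := h5
    rwa [Equiv.symm_apply_apply] at h6
  show e0 (c (τ w)) = μ (e0 (c w))
  have h7 : c (τ w) = e0.symm (μ (e0 (c w))) := h4
  rw [h7, Equiv.apply_symm_apply]

section
variable {p : ℕ} [Fact p.Prime] {I : Type} [Fintype I] (ρ : Option (I × Bool) ≃ ZMod p)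
  (g : I → ZMod p) (hg : ∀ i, g i ≠ 0)

/-- the edges of the complete graph -/
def psi0 : KE p I → (⊤ : SimpleGraph (Option (ZMod p))).edgeSet
  | .inl u => ⟨s(none, some u), by
      rw [SimpleGraph.mem_edgeSet, SimpleGraph.top_adj]
      intro h
      cases h⟩
  | .inr (i, u) => ⟨s(some u, some (u + g i)), by
      rw [SimpleGraph.mem_edgeSet, SimpleGraph.top_adj]
      intro h
      have h1 := Option.some.inj h
      exact hg i (by simpa using h1)⟩

lemma psi0_inl (u : ZMod p) : (psi0 g hg (.inl u) : Sym2 (Option (ZMod p))) = s(none, some u) := rfl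
lemma psi0_inr (i : I) (u : ZMod p) :
    (psi0 g hg (.inr (i, u)) : Sym2 (Option (ZMod p))) = s(some u, some (u + g i)) := rfl

lemma psi_bij (hh : Half {z : ZMod p | z ≠ 0} g) : Function.Bijective (psi0 g hg) := by
  have hinj := hh.injOn
  have hsurj := hh.surjOn
  constructor
  · intro e e' h
    have h' : (psi0 g hg e : Sym2 (Option (ZMod p))) = psi0 g hg e' := by rw [h]
    rcases e with u | ⟨i, u⟩ <;> rcases e' with u' | ⟨i', u'⟩
    · rw [psi0_inl, psi0_inl] at h'
      have h1 := Option.some.inj (Sym2.congr_right.1 h')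
      rw [h1]
    · rw [psi0_inl, psi0_inr, Sym2.eq_iff] at h'
      rcases h' with ⟨h1, -⟩ | ⟨h1, -⟩ <;> cases h1
    · rw [psi0_inl, psi0_inr, Sym2.eq_iff] at h'
      rcases h' with ⟨h1, -⟩ | ⟨-, h1⟩ <;> cases h1
    · rw [psi0_inr, psi0_inr, Sym2.eq_iff] at h'
      rcases h' with ⟨h1, h2⟩ | ⟨h1, h2⟩
      · have h1 := Option.some.inj h1
        have h2 := Option.some.inj h2
        subst h1
        have h3 : g i = g i' := add_left_cancel h2
        have h4 := @hinj (i, true) (Set.mem_univ _) (i', true) (Set.mem_univ _) (by simpa using h3)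
        have h5 : i = i' := congrArg Prod.fst h4
        rw [h5]
      · exfalso
        have h1 := Option.some.inj h1
        have h2 := Option.some.inj h2
        have h3 : g i = - g i' := by
          have : u' + g i' + g i = u' := by rw [← h1]; exact h2
          have h6 : g i' + g i = 0 := by
            have h7 : u' + (g i' + g i) = u' + 0 := by rw [← add_assoc, this, add_zero]
            exact add_left_cancel h7
          exact eq_neg_of_add_eq_zero_right h6
        have h4 := @hinj (i, true) (Set.mem_univ _) (i', false) (Set.mem_univ _) (by simpa using h3)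
        have h5 : true = false := congrArg Prod.snd h4
        exact Bool.noConfusion h5
  · rintro ⟨s, hs⟩
    induction s using Sym2.ind with
    | _ a b =>
      have hab : a ≠ b := by
        rw [SimpleGraph.mem_edgeSet, SimpleGraph.top_adj] at hs
        exact hs
      rcases a with _ | u <;> rcases b with _ | w
      · exact absurd rfl hab
      · exact ⟨.inl w, rfl⟩
      · exact ⟨.inl u, Subtype.ext Sym2.eq_swap⟩
      · have hne : w - u ≠ 0 := by
          intro h
          apply hab
          rw [sub_eq_zero.1 h]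
        obtain ⟨⟨i, b⟩, -, hib⟩ := hsurj hne
        cases b
        · have h1 : - g i = w - u := by simpa using hib
          refine ⟨.inr (i, w), Subtype.ext ?_⟩
          rw [psi0_inr]
          have h2 : w + g i = u := by rw [← neg_neg (g i), h1]; ring
          rw [h2]
          exact Sym2.eq_swap
        · have h1 : g i = w - u := by simpa using hib
          refine ⟨.inr (i, u), Subtype.ext ?_⟩
          rw [psi0_inr, h1]
          have h2 : u + (w - u) = w := by ring
          rw [h2]

lemma psi_h1 (v : Option (ZMod p)) (q : Option (I × Bool)) :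
    v ∈ (psi0 g hg (kinc ρ g v q) : Sym2 (Option (ZMod p))) := by
  rcases v with _ | u
  · exact Sym2.mem_mk_left _ _
  · rcases q with _ | ⟨i, _ | _⟩
    · exact Sym2.mem_mk_right _ _
    · show some u ∈ s(some (u - g i), some (u - g i + g i))
      rw [sub_add_cancel]
      exact Sym2.mem_mk_right _ _
    · exact Sym2.mem_mk_left _ _

lemma psi_h2 (v : Option (ZMod p)) (e : KE p I)
    (hv : v ∈ (psi0 g hg e : Sym2 (Option (ZMod p)))) : ∃ q, kinc ρ g v q = e := by
  rcases e with w | ⟨i, w⟩
  · rw [psi0_inl, Sym2.mem_iff] at hv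
    rcases hv with rfl | rfl
    · exact ⟨ρ.symm w, congrArg Sum.inl (ρ.apply_symm_apply w)⟩
    · exact ⟨none, rfl⟩
  · rw [psi0_inr, Sym2.mem_iff] at hv
    rcases hv with rfl | rfl
    · exact ⟨some (i, true), rfl⟩
    · refine ⟨some (i, false), ?_⟩
      show (Sum.inr (i, w + g i - g i) : KE p I) = _
      rw [add_sub_cancel_right]

include hg in
lemma psi_h3 (v : Option (ZMod p)) : Function.Injective (kinc ρ g v) := by
  intro q q' h
  rcases v with _ | u
  · exact ρ.injective (Sum.inl.inj h)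
  · rcases q with _ | ⟨i, _ | _⟩ <;> rcases q' with _ | ⟨i', _ | _⟩
    · rfl
    · have h0 : (Sum.inl u : KE p I) = Sum.inr (i', u - g i') := h
      cases h0
    · have h0 : (Sum.inl u : KE p I) = Sum.inr (i', u) := h
      cases h0
    · have h0 : (Sum.inr (i, u - g i) : KE p I) = Sum.inl u := h
      cases h0
    · have h1 : (i, u - g i) = (i', u - g i') := Sum.inr.inj h
      have h2 : i = i' := congrArg Prod.fst h1
      rw [h2]
    · exfalso
      have h1 : (i, u - g i) = (i', u) := Sum.inr.inj h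
      have h2 : u - g i = u := congrArg Prod.snd h1
      exact hg i (by simpa using h2)
    · have h0 : (Sum.inr (i, u) : KE p I) = Sum.inl u := h
      cases h0
    · exfalso
      have h1 : (i, u) = (i', u - g i') := Sum.inr.inj h
      have h2 : u = u - g i' := congrArg Prod.snd h1
      exact hg i' (by simpa using h2.symm)
    · have h1 : (i, u) = (i', u) := Sum.inr.inj h
      have h2 : i = i' := congrArg Prod.fst h1
      rw [h2]

end

/-- the removal of one perfect matching from the complete graph on `p + 1` points -/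
theorem removal_top (p : ℕ) [Fact p.Prime] (hp2 : p ≠ 2) :
    ∃ M : Set (Sym2 (Option (ZMod p))), M ⊆ (⊤ : SimpleGraph (Option (ZMod p))).edgeSet ∧
      (∀ v, ∃! e, e ∈ M ∧ v ∈ e) ∧
      EL.EL ((⊤ : SimpleGraph (Option (ZMod p))).deleteEdges M) (p - 1) := by
  have hpp : p.Prime := Fact.out
  have hodd : Odd p := hpp.odd_of_ne_two hp2
  obtain ⟨m, hm⟩ := hodd
  obtain ⟨g, hg'⟩ := Pool.Agent.W337.LE.half p m (hpp.odd_of_ne_two hp2) (univ.erase (0 : ZMod p))
    (fun x hx => mem_erase.2 ⟨neg_ne_zero.2 (mem_erase.1 hx).1, mem_univ _⟩)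
    (fun h => (mem_erase.1 h).1 rfl)
    (by rw [card_erase_of_mem (mem_univ _), Finset.card_univ, ZMod.card]; omega)
  have hset : ((univ.erase (0 : ZMod p) : Finset (ZMod p)) : Set (ZMod p)) = {z | z ≠ 0} := by
    ext z
    simp
  rw [hset] at hg'
  have hg : ∀ i, g i ≠ 0 := by
    intro i
    have h4 := hg'.mapsTo (Set.mem_univ (i, true))
    simpa using h4
  have ρ : Option (Fin m × Bool) ≃ ZMod p := Fintype.equivOfCardEq (by
    simp only [Fintype.card_option, Fintype.card_prod, Fintype.card_bool, Fintype.card_fin,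
      ZMod.card]
    omega)
  let ψ : KE p (Fin m) ≃ (⊤ : SimpleGraph (Option (ZMod p))).edgeSet :=
    Equiv.ofBijective (psi0 g hg) (psi_bij g hg hg')
  have h1 : ∀ v i, v ∈ (ψ (kinc ρ g v i) : Sym2 (Option (ZMod p))) := fun v i => psi_h1 ρ g hg v i
  have h2 : ∀ v e, v ∈ (ψ e : Sym2 (Option (ZMod p))) → ∃ i, kinc ρ g v i = e := fun v e hv =>
    psi_h2 ρ g hg v e hv
  have h3 := psi_h3 ρ g hg
  have hN : NN ρ (kinc ρ g) ≠ 0 := by
    refine kNN ρ g hp2 (fun e => ?_) hg
    exact natcard_of _ _ _ (Pool.Agent.W15.LEGR.card_two (kinc ρ g) _ ψ h1 h2 h3 e)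
  obtain ⟨M, hM1, hM2, hM3⟩ := FR.removal ρ (kinc ρ g) _ ψ h1 h2 h3 hN none
  refine ⟨M, hM1, hM2, ?_⟩
  rw [card_ne, Fintype.card_option, Fintype.card_prod, Fintype.card_bool, Fintype.card_fin] at hM3
  have h9 : m * 2 + 1 - 1 = p - 1 := by omega
  rwa [h9] at hM3

/-- cocktail party graphs and their subgraphs -/
theorem cocktail (p : ℕ) [Fact p.Prime] (hp2 : p ≠ 2) (W : Type) [Fintype W]
    (hW : Fintype.card W = p + 1) (τ : W → W) (hτ : ∀ w, τ (τ w) = w) (hτ' : ∀ w, τ w ≠ w)
    (G : SimpleGraph W) (hG : ∀ u v, G.Adj u v → v ≠ τ u) : EL.EL G (p - 1) := by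
  obtain ⟨M, hM1, hM2, hM3⟩ := removal_top p hp2
  have hex : ∀ v : Option (ZMod p), ∃ w, s(v, w) ∈ M := by
    intro v
    obtain ⟨e, ⟨he, hv⟩, -⟩ := hM2 v
    obtain ⟨w, rfl⟩ := Sym2.mem_iff_exists.1 hv
    exact ⟨w, he⟩
  choose μ hμM using hex
  have huniq : ∀ v w, s(v, w) ∈ M → w = μ v := by
    intro v w h
    have h1 := (hM2 v).unique ⟨h, Sym2.mem_mk_left _ _⟩ ⟨hμM v, Sym2.mem_mk_left _ _⟩
    exact Sym2.congr_right.1 h1
  have hμ : ∀ v, μ (μ v) = v := by
    intro v
    symm
    apply huniq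
    rw [Sym2.eq_swap]
    exact hμM v
  have hμ' : ∀ v, μ v ≠ v := by
    intro v h
    have h1 := hM1 (hμM v)
    rw [SimpleGraph.mem_edgeSet, SimpleGraph.top_adj] at h1
    exact h1 h.symm
  have hne : Nonempty W := Fintype.card_pos_iff.1 (by rw [hW]; omega)
  obtain ⟨f, hf⟩ := conj_inv (V := Option (ZMod p))
    (by rw [hW, Fintype.card_option, ZMod.card]) τ hτ hτ' μ hμ hμ'
  refine EL.mono G _ f f.injective ?_ (p - 1) hM3
  intro u v huv
  rw [SimpleGraph.deleteEdges_adj, SimpleGraph.top_adj]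
  refine ⟨fun h => huv.ne (f.injective h), fun h => ?_⟩
  have h1 := huniq _ _ h
  rw [← hf] at h1
  exact hG u v huv (f.injective h1)

end Pool.Agent.W862.LE.CP
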