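import Pool.Agent.W862.LE.Abs

/-!
# Removal of a 1-factor
-/

set_option autoImplicit false

namespace Pool.Agent.W862.LE.FR

open Finset Pool.Agent.W426.LE

/-- the restricted reference -/
def rst {D C : Type} (ρ : D ≃ C) (d0 : D) : {k : D // k ≠ d0} ≃ {c : C // c ≠ ρ d0} :=
  ρ.subtypeEquiv fun _ => (ρ.injective.ne_iff).symm

open Classical in
lemma sg_sub {D C : Type} [Fintype D] (ρ : D ≃ C) (d0 : D) (f : D → C) (hf : f d0 = ρ d0)
    (f' : {k : D // k ≠ d0} → {c : C // c ≠ ρ d0}) (hf' : ∀ k, (f' k : C) = f k) :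
    sg ρ f = sg (rst ρ d0) f' := by
  by_cases hb : Function.Bijective f
  · have hb' : Function.Bijective f' := by
      constructor
      · intro k k' h
        have h1 : f k = f k' := by rw [← hf', ← hf', h]
        exact Subtype.ext (hb.1 h1)
      · intro c
        obtain ⟨k, hk⟩ := hb.2 c.1
        have hk0 : k ≠ d0 := by
          rintro rfl
          exact c.2 (hk.symm.trans hf)
        refine ⟨⟨k, hk0⟩, Subtype.ext ?_⟩
        rw [hf']
        exact hk
    obtain ⟨e, rfl⟩ := exists_equiv f hb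
    obtain ⟨e', rfl⟩ := exists_equiv f' hb'
    rw [sg_equiv, sg_equiv]
    have hs' : ∀ (i1 i2 : DecidableEq {k : D // k ≠ d0}) (j1 j2 : Fintype {k : D // k ≠ d0})
        (τ τ' : Equiv.Perm {k : D // k ≠ d0}), τ = τ' →
        @Equiv.Perm.sign _ i1 j1 τ = @Equiv.Perm.sign _ i2 j2 τ' := fun i1 i2 j1 j2 τ τ' h => by
      rw [Subsingleton.elim i1 i2, Subsingleton.elim j1 j2, h]
    have hp : ∀ k, k ≠ d0 ↔ (e.trans ρ.symm : Equiv.Perm D) k ≠ d0 := by
      intro k
      have : (e.trans ρ.symm : Equiv.Perm D) d0 = d0 := by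
        show ρ.symm (e d0) = d0
        rw [hf, ρ.symm_apply_apply]
      constructor
      · intro h h'
        exact h ((e.trans ρ.symm).injective (h'.trans this.symm))
      · rintro h rfl
        exact h this
    have h1 := Equiv.Perm.sign_subtypePerm (e.trans ρ.symm : Equiv.Perm D)
      (p := fun k => k ≠ d0) (fun k => (hp k).symm) (fun k hk => by
        rintro rfl
        apply hk
        show ρ.symm (e _) = _
        rw [hf, ρ.symm_apply_apply])
    refine (congrArg (fun u : ℤˣ => (u : ℤ)) h1.symm).trans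
      (congrArg (fun u : ℤˣ => (u : ℤ)) (hs' _ _ _ _ _ _ ?_))
    refine Equiv.ext fun k => Subtype.ext ?_
    show ρ.symm (e k) = ρ.symm (e' k : C)
    rw [hf']
  · have hb' : ¬ Function.Bijective f' := by
      intro hb'
      apply hb
      constructor
      · intro k k' h
        by_cases h0 : k = d0
        · by_cases h0' : k' = d0
          · rw [h0, h0']
          · exfalso
            have h5 := (f' ⟨k', h0'⟩).2
            rw [hf'] at h5
            apply h5
            show f k' = ρ d0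
            rw [← h, h0, hf]
        · by_cases h0' : k' = d0
          · exfalso
            have h5 := (f' ⟨k, h0⟩).2
            rw [hf'] at h5
            apply h5
            show f k = ρ d0
            rw [h, h0', hf]
          · have h6 : f' ⟨k, h0⟩ = f' ⟨k', h0'⟩ := Subtype.ext (by rw [hf', hf']; exact h)
            exact congrArg Subtype.val (hb'.1 h6)
      · intro c
        by_cases hc : c = ρ d0
        · exact ⟨d0, by rw [hf, hc]⟩
        · obtain ⟨k, hk⟩ := hb'.2 ⟨c, hc⟩
          refine ⟨k.1, ?_⟩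
          rw [← hf', hk]
    rw [sg_of_not ρ f hb, sg_of_not _ _ hb']

open Classical in
/-- if the signed number of 1-factorizations is not zero, then some perfect matching can be removed -/
theorem removal {V E D C : Type} [Fintype V] [Fintype E] [Fintype D] [Fintype C] (ρ : D ≃ C)
    (inc : V → D → E) (G : SimpleGraph V) (ψ : E ≃ G.edgeSet)
    (h1 : ∀ v i, v ∈ (ψ (inc v i) : Sym2 V))
    (h2 : ∀ v e, v ∈ (ψ e : Sym2 V) → ∃ i, inc v i = e)
    (h3 : ∀ v, Function.Injective (inc v)) (hN : NN ρ inc ≠ 0) (d0 : D) :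
    ∃ M : Set (Sym2 V), M ⊆ G.edgeSet ∧ (∀ v, ∃! e, e ∈ M ∧ v ∈ e) ∧
      EL.EL (G.deleteEdges M) (Fintype.card {k : D // k ≠ d0}) := by
  set c0 : C := ρ d0 with hc0
  have e1 : NN ρ inc = ∑ x : E → C, Abs.wt ρ inc x := by
    unfold NN
    refine Finset.sum_congr ?_ fun x _ => rfl
    ext x
    simp only [mem_univ]
  rw [e1, ← Finset.sum_fiberwise univ (fun x : E → C => univ.filter (fun e => x e = c0))] at hN
  obtain ⟨S, -, hS⟩ := Finset.exists_ne_zero_of_sum_ne_zero hN
  have hmemS : ∀ x : E → C, x ∈ univ.filter (fun x : E → C =>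
      univ.filter (fun e => x e = c0) = S) ↔ ∀ e, x e = c0 ↔ e ∈ S := by
    intro x
    rw [mem_filter, Finset.ext_iff]
    simp only [mem_univ, true_and, mem_filter]
  obtain ⟨x1, hx1, hw1⟩ := Finset.exists_ne_zero_of_sum_ne_zero hS
  have hx1S := (hmemS x1).1 hx1
  have hp1 := (Abs.wt_ne_zero_iff ρ inc x1).1 hw1
  choose iv hiv using fun v => (hp1 v).2 c0
  have hivS : ∀ v j, inc v j ∈ S ↔ j = iv v := by
    intro v j
    rw [← hx1S]
    constructor
    · intro h
      exact (hp1 v).1 (h.trans (hiv v).symm)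
    · rintro rfl
      exact hiv v
  have hsw : ∀ v (k : {k : D // k ≠ d0}), inc v (Equiv.swap d0 (iv v) k) ∉ S := by
    intro v k h
    rw [hivS] at h
    have h5 : (k : D) = d0 := by
      have h6 := congrArg (Equiv.swap d0 (iv v)) h
      rw [Equiv.swap_apply_self, Equiv.swap_apply_right] at h6
      exact h6
    exact k.2 h5
  let inc' : V → {k : D // k ≠ d0} → {e : E // e ∉ S} := fun v k =>
    ⟨inc v (Equiv.swap d0 (iv v) k), hsw v k⟩
  let ρ' := rst ρ d0
  -- the sums agree up to a factor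
  let ext' : ({e : E // e ∉ S} → {c : C // c ≠ c0}) → (E → C) := fun x' e =>
    if h : e ∉ S then (x' ⟨e, h⟩ : C) else c0
  have hext : ∀ x' (e : {e : E // e ∉ S}), ext' x' e = x' e := by
    intro x' e
    simp only [ext']
    rw [dif_pos e.2]
  have hext' : ∀ x' (e : E), e ∈ S → ext' x' e = c0 := by
    intro x' e he
    simp only [ext']
    rw [dif_neg (not_not.2 he)]
  have hfac : ∀ x', Abs.wt ρ inc (ext' x') =
      (∏ v, ((Equiv.Perm.sign (Equiv.swap d0 (iv v)) : ℤˣ) : ℤ)) * Abs.wt ρ' inc' x' := by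
    intro x'
    unfold Abs.wt
    rw [← Finset.prod_mul_distrib]
    refine Finset.prod_congr rfl fun v _ => ?_
    have g1 := sg_comp_perm ρ (fun i => ext' x' (inc v i)) (Equiv.swap d0 (iv v))
    have g2 : sg ρ (fun i => (fun i => ext' x' (inc v i)) (Equiv.swap d0 (iv v) i)) =
        sg ρ' (fun k => x' (inc' v k)) := by
      refine sg_sub ρ d0 _ ?_ _ ?_
      · show ext' x' (inc v (Equiv.swap d0 (iv v) d0)) = ρ d0
        rw [Equiv.swap_apply_left]
        exact hext' x' _ ((hivS v _).2 rfl)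
      · intro k
        exact (hext x' (inc' v k)).symm
    rw [← g2]
    have g3 : ((Equiv.Perm.sign (Equiv.swap d0 (iv v)) : ℤˣ) : ℤ) *
        ((Equiv.Perm.sign (Equiv.swap d0 (iv v)) : ℤˣ) : ℤ) = 1 := by
      rw [← Units.val_mul, Int.units_mul_self, Units.val_one]
    refine Eq.trans ?_ (congrArg (fun z : ℤ =>
      ((Equiv.Perm.sign (Equiv.swap d0 (iv v)) : ℤˣ) : ℤ) * z) g1.symm)
    show _ = ((Equiv.Perm.sign (Equiv.swap d0 (iv v)) : ℤˣ) : ℤ) *
      (((Equiv.Perm.sign (Equiv.swap d0 (iv v)) : ℤˣ) : ℤ) * _)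
    rw [← mul_assoc, g3, one_mul]
  have hsum : ∑ x ∈ univ.filter (fun x : E → C => univ.filter (fun e => x e = c0) = S),
      Abs.wt ρ inc x = (∏ v, ((Equiv.Perm.sign (Equiv.swap d0 (iv v)) : ℤˣ) : ℤ)) *
        NN ρ' inc' := by
    have e2 : NN ρ' inc' = ∑ x' : {e : E // e ∉ S} → {c : C // c ≠ c0}, Abs.wt ρ' inc' x' := by
      unfold NN
      refine Finset.sum_congr ?_ fun x _ => rfl
      ext x
      simp only [mem_univ]
    rw [e2, Finset.mul_sum]
    symm
    refine Finset.sum_of_injOn ext' ?_ ?_ ?_ ?_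
    · intro x' _ y' _ h
      funext e
      refine Subtype.ext ?_
      rw [← hext, ← hext, h]
    · intro x' _
      refine mem_coe.2 ((hmemS _).2 fun e => ?_)
      by_cases he : e ∈ S
      · simp only [he, iff_true]
        exact hext' x' e he
      · simp only [he, iff_false]
        have h7 := hext x' ⟨e, he⟩
        rw [h7]
        exact (x' ⟨e, he⟩).2
    · intro x hx hx'
      exfalso
      apply hx'
      have hxS := (hmemS x).1 hx
      have hy : ∀ e : {e : E // e ∉ S}, x e ≠ c0 := fun e h => e.2 ((hxS e).1 h)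
      let y : {e : E // e ∉ S} → {c : C // c ≠ c0} := fun e => ⟨x e, hy e⟩
      refine ⟨y, mem_coe.2 (mem_univ _), ?_⟩
      funext e
      by_cases he : e ∈ S
      · exact (hext' y e he).trans ((hxS e).2 he).symm
      · exact hext y ⟨e, he⟩
    · intro x' _
      exact (hfac x').symm
  have hN' : NN ρ' inc' ≠ 0 := by
    intro h
    rw [hsum, h, mul_zero] at hS
    exact hS rfl
  refine ⟨{s | ∃ e ∈ S, (ψ e : Sym2 V) = s}, ?_, ?_, ?_⟩
  · rintro s ⟨e, -, rfl⟩
    exact (ψ e).2
  · intro v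
    refine ⟨(ψ (inc v (iv v)) : Sym2 V), ⟨⟨_, (hivS v _).2 rfl, rfl⟩, h1 v _⟩, ?_⟩
    rintro s ⟨⟨e, he, rfl⟩, hv⟩
    obtain ⟨j, rfl⟩ := h2 v e hv
    rw [(hivS v j).1 he]
  · have hmem : ∀ e : {e : E // e ∉ S}, (ψ e.1 : Sym2 V) ∈
        (G.deleteEdges {s | ∃ e ∈ S, (ψ e : Sym2 V) = s}).edgeSet := by
      intro e
      rw [SimpleGraph.edgeSet_deleteEdges]
      refine ⟨(ψ e.1).2, ?_⟩
      rintro ⟨e', he', h⟩
      have h5 := ψ.injective (Subtype.ext h)
      rw [h5] at he'
      exact e.2 he'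
    let ψ0 : {e : E // e ∉ S} → (G.deleteEdges {s | ∃ e ∈ S, (ψ e : Sym2 V) = s}).edgeSet :=
      fun e => ⟨_, hmem e⟩
    have hψ : Function.Bijective ψ0 := by
      constructor
      · intro e e' h
        have h5 : (ψ0 e : Sym2 V) = (ψ0 e' : Sym2 V) := by rw [h]
        exact Subtype.ext (ψ.injective (Subtype.ext h5))
      · rintro ⟨s, hs⟩
        have hs' := hs
        rw [SimpleGraph.edgeSet_deleteEdges] at hs'
        refine ⟨⟨ψ.symm ⟨s, hs'.1⟩, ?_⟩, ?_⟩
        · intro h
          exact hs'.2 ⟨_, h, by rw [Equiv.apply_symm_apply]⟩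
        · refine Subtype.ext ?_
          show ((ψ (ψ.symm ⟨s, hs'.1⟩) : G.edgeSet) : Sym2 V) = s
          rw [Equiv.apply_symm_apply]
    exact EL.sGRE V {e : E // e ∉ S} {k : D // k ≠ d0} {c : C // c ≠ c0} ρ' inc'
      (G.deleteEdges {s | ∃ e ∈ S, (ψ e : Sym2 V) = s}) (Equiv.ofBijective ψ0 hψ)
      (fun v k => h1 v _)
      (fun v e hv => by
        obtain ⟨j, hj⟩ := h2 v e.1 hv
        have hne : j ≠ iv v := by
          intro h
          apply e.2
          rw [← hj]
          exact (hivS v j).2 h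
        have hk : Equiv.swap d0 (iv v) j ≠ d0 := by
          intro h
          apply hne
          have h6 := congrArg (Equiv.swap d0 (iv v)) h
          rwa [Equiv.swap_apply_self, Equiv.swap_apply_left] at h6
        refine ⟨⟨_, hk⟩, Subtype.ext ?_⟩
        show inc v (Equiv.swap d0 (iv v) (Equiv.swap d0 (iv v) j)) = e.1
        rw [Equiv.swap_apply_self]
        exact hj)
      (fun v k k' h => by
        have h5 : inc v (Equiv.swap d0 (iv v) k) = inc v (Equiv.swap d0 (iv v) k') :=
          congrArg Subtype.val h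
        exact Subtype.ext ((Equiv.swap d0 (iv v)).injective (h3 v h5)))
      hN'

end Pool.Agent.W862.LE.FR
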