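import Mathlib

/-!
# Sums over sets with an action of a `p`-group, modulo `p`
-/

set_option autoImplicit false

namespace Pool.Agent.W862.LE

open Finset

open Classical in
/-- a sum invariant under a `p`-group is the sum over the fixed points, modulo `p` -/
theorem sum_fixed (p : ℕ) [Fact p.Prime] {G X : Type*} [Group G] [MulAction G X] [Fintype X]
    (hG : IsPGroup p G) (w : X → ZMod p) (hw : ∀ (g : G) (x : X), w (g • x) = w x) :
    ∑ x, w x = ∑ x ∈ univ.filter (fun x => ∀ g : G, g • x = x), w x := by
  have key : ∀ c : ZMod p, (((univ.filter (fun x => w x = c)).card : ℕ) : ZMod p) =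
      (((univ.filter (fun x => (∀ g : G, g • x = x) ∧ w x = c)).card : ℕ) : ZMod p) := by
    intro c
    let Y := {x : X // w x = c}
    let _ : MulAction G Y :=
      { smul := fun g y => ⟨g • y.1, by rw [hw]; exact y.2⟩
        one_smul := fun y => Subtype.ext (one_smul G y.1)
        mul_smul := fun a b y => Subtype.ext (mul_smul a b y.1) }
    have h1 := hG.card_modEq_card_fixedPoints Y
    have h2 : Nat.card Y = (univ.filter (fun x => w x = c)).card := by
      rw [Nat.card_eq_fintype_card, Fintype.card_subtype]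
    have h3 : Nat.card (MulAction.fixedPoints G Y) =
        (univ.filter (fun x => (∀ g : G, g • x = x) ∧ w x = c)).card := by
      rw [← Fintype.card_subtype, ← Nat.card_eq_fintype_card]
      refine Nat.card_congr ⟨fun y => ⟨y.1.1, fun g => congrArg Subtype.val (y.2 g), y.1.2⟩,
        fun x => ⟨⟨x.1, x.2.2⟩, fun g => Subtype.ext (x.2.1 g)⟩, fun y => rfl, fun x => rfl⟩
    rw [h2, h3] at h1
    exact (ZMod.natCast_eq_natCast_iff _ _ p).2 h1
  have e1 : ∑ x, w x = ∑ c : ZMod p, (((univ.filter (fun x => w x = c)).card : ℕ) : ZMod p) * c := by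
    rw [← Finset.sum_fiberwise univ w w]
    refine Finset.sum_congr rfl fun c _ => ?_
    rw [Finset.sum_congr rfl (fun x hx => (Finset.mem_filter.1 hx).2), Finset.sum_const,
      nsmul_eq_mul]
  have e2 : ∑ x ∈ univ.filter (fun x => ∀ g : G, g • x = x), w x = ∑ c : ZMod p,
      (((univ.filter (fun x => (∀ g : G, g • x = x) ∧ w x = c)).card : ℕ) : ZMod p) * c := by
    rw [← Finset.sum_fiberwise _ w w]
    refine Finset.sum_congr rfl fun c _ => ?_
    rw [Finset.sum_congr rfl (fun x hx => (Finset.mem_filter.1 hx).2), Finset.sum_const,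
      nsmul_eq_mul, Finset.filter_filter]
  rw [e1, e2]
  exact Finset.sum_congr rfl fun c _ => by rw [key c]

theorem sum_fixed' (p : ℕ) [Fact p.Prime] {G X : Type*} [Group G] [MulAction G X] [Fintype X]
    (hG : IsPGroup p G) (w : X → ZMod p) (hw : ∀ (g : G) (x : X), w (g • x) = w x)
    (S : Finset X) (hS : ∀ x, x ∈ S ↔ ∀ g : G, g • x = x) :
    ∑ x, w x = ∑ x ∈ S, w x := by
  rw [sum_fixed p hG w hw]
  refine Finset.sum_congr ?_ fun _ _ => rfl
  ext x
  simp [hS]

end Pool.Agent.W862.LE
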