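import Pool.Agent.W426.LE.Stm
import Pool.Agent.W426.LE.SG

/-!
# The signed count of the multigraphs on four vertices
-/

set_option autoImplicit false

namespace Pool.Agent.W862.LE

open Finset Pool.Agent.W426.LE

/-- the four vertices -/
abbrev KK := Option (Fin 3)

/-- the two pairs of type `t` -/
def qq (t : Fin 3) : KK → Bool
  | none => false
  | some j => decide (j ≠ t)

/-- local edges: type and number -/
abbrev DM (m : Fin 3 → ℕ) := Σ t : Fin 3, Fin (m t)

/-- the base incidence structure -/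
def binc (m : Fin 3 → ℕ) : KK → DM m → DM m × Bool := fun κ i => (i, qq i.1 κ)

/-- the colouring given by a bijection and permutations of the bundles -/
def colr {m : Fin 3 → ℕ} {C : Type} (q : (DM m ≃ C) × (∀ t, Equiv.Perm (Fin (m t)))) :
    DM m × Bool → C :=
  fun e => if e.2 = true then q.1 (Equiv.Perm.sigmaCongrRight q.2 e.1) else q.1 e.1

section
variable {m : Fin 3 → ℕ} {C : Type}

theorem weight_eq (ρ : DM m ≃ C) (x : DM m × Bool → C) :
    ∏ v : KK, sg ρ (fun i => x (binc m v i)) =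
      sg ρ (fun i => x (i, false)) * ∏ j : Fin 3, sg ρ (fun i => x (i, decide (j ≠ i.1))) := by
  rw [Fintype.prod_option]
  rfl

theorem weight_colr (ρ : DM m ≃ C) (q : (DM m ≃ C) × (∀ t, Equiv.Perm (Fin (m t)))) :
    ∏ v : KK, sg ρ (fun i => colr q (binc m v i)) = 1 := by
  classical
  rw [weight_eq]
  obtain ⟨σ, π⟩ := q
  have h0 : (fun i => colr (σ, π) (i, false)) = (σ : DM m → C) := by
    funext i; simp [colr]
  set S : (∀ t, Equiv.Perm (Fin (m t))) →* ℤˣ :=
    (Equiv.Perm.sign : Equiv.Perm (DM m) →* ℤˣ).comp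
      (Equiv.Perm.sigmaCongrRightHom (fun t : Fin 3 => Fin (m t))) with hS
  set πj : Fin 3 → (∀ t, Equiv.Perm (Fin (m t))) := fun j t => if t = j then 1 else π t with hπ
  have hj : ∀ j : Fin 3, sg ρ (fun i => colr (σ, π) (i, decide (j ≠ i.1))) =
      ((S (πj j) : ℤˣ) : ℤ) * sg ρ σ := by
    intro j
    have e1 : (fun i => colr (σ, π) (i, decide (j ≠ i.1))) =
        fun i => σ (Equiv.Perm.sigmaCongrRight (πj j) i) := by
      funext i
      obtain ⟨t, a⟩ := i
      by_cases h : t = j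
      · subst h; simp [colr, hπ]
      · have h' : j ≠ t := fun h' => h h'.symm
        simp [colr, h, h', hπ]
    have hs' : ∀ (i1 i2 : DecidableEq (DM m)) (τ : Equiv.Perm (DM m)),
        @Equiv.Perm.sign _ i1 _ τ = @Equiv.Perm.sign _ i2 _ τ := fun i1 i2 τ => by
      rw [Subsingleton.elim i1 i2]
    rw [e1, sg_comp_perm]
    exact congrArg (fun u : ℤˣ => (u : ℤ) * sg ρ (σ : DM m → C)) (hs' _ _ _)
  have hprod : S (πj 0) * S (πj 1) * S (πj 2) = 1 := by
    rw [← map_mul, ← map_mul]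
    have e2 : πj 0 * πj 1 * πj 2 = π * π := by
      funext t
      fin_cases t <;> simp [hπ]
    rw [e2, map_mul]
    exact Int.units_mul_self _
  have hprod' : ((S (πj 0) : ℤˣ) : ℤ) * ((S (πj 1) : ℤˣ) : ℤ) * ((S (πj 2) : ℤˣ) : ℤ) = 1 := by
    rw [← Units.val_mul, ← Units.val_mul, hprod]; rfl
  rw [h0]
  simp_rw [hj]
  have hs := sg_sq ρ (σ : DM m → C) σ.bijective
  rw [Fin.prod_univ_three]
  generalize sg ρ (σ : DM m → C) = z at hs ⊢
  generalize ((S (πj 0) : ℤˣ) : ℤ) = a0 at hprod' ⊢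
  generalize ((S (πj 1) : ℤˣ) : ℤ) = a1 at hprod' ⊢
  generalize ((S (πj 2) : ℤˣ) : ℤ) = a2 at hprod' ⊢
  calc z * (a0 * z * (a1 * z) * (a2 * z)) = (a0 * a1 * a2) * ((z * z) * (z * z)) := by ring
    _ = 1 := by rw [hprod', hs]; norm_num

theorem colr_inj : Function.Injective (colr (m := m) (C := C)) := by
  rintro ⟨σ, π⟩ ⟨σ', π'⟩ h
  have h1 : σ = σ' := by
    ext i
    have := congrFun h (i, false)
    simpa [colr] using this
  subst h1
  have h2 : Equiv.Perm.sigmaCongrRight π = Equiv.Perm.sigmaCongrRight π' := by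
    ext1 i
    have := congrFun h (i, true)
    simp only [colr, if_true] at this
    exact σ.injective this
  have h3 := Equiv.Perm.sigmaCongrRightHom_injective (β := fun t : Fin 3 => Fin (m t))
    (a₁ := π) (a₂ := π') (by simpa [Equiv.Perm.sigmaCongrRightHom] using h2)
  rw [h3]

theorem exists_colr [Fintype C] (ρ : DM m ≃ C) (x : DM m × Bool → C)
    (hx : ∏ v : KK, sg ρ (fun i => x (binc m v i)) ≠ 0) : ∃ q, colr q = x := by
  rw [weight_eq] at hx
  have h0 : Function.Bijective (fun i => x (i, false)) :=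
    (sg_ne_zero_iff ρ _).1 (left_ne_zero_of_mul hx)
  have hj : ∀ j : Fin 3, Function.Bijective (fun i : DM m => x (i, decide (j ≠ i.1))) := fun j =>
    (sg_ne_zero_iff ρ _).1 (Finset.prod_ne_zero_iff.1 (right_ne_zero_of_mul hx) j (mem_univ j))
  have key : ∀ (t : Fin 3) (a : Fin (m t)), ∃ b : Fin (m t), x (⟨t, b⟩, false) = x (⟨t, a⟩, true) := by
    intro t a
    obtain ⟨⟨t', b⟩, hb⟩ := h0.2 (x (⟨t, a⟩, true))
    by_cases h : t' = t
    · subst h; exact ⟨b, hb⟩
    · exfalso
      have h1 := (hj t').1 (a₁ := ⟨t', b⟩) (a₂ := ⟨t, a⟩) (by simpa [h] using hb)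
      exact h (congrArg Sigma.fst h1)
  choose g hg using key
  have ginj : ∀ t, Function.Injective (g t) := by
    intro t a a' haa
    have h1 : x (⟨t, a⟩, true) = x (⟨t, a'⟩, true) := by rw [← hg, ← hg, haa]
    have hne : t + 1 ≠ t := by
      fin_cases t <;> decide
    have h2 := (hj (t + 1)).1 (a₁ := ⟨t, a⟩) (a₂ := ⟨t, a'⟩) (by simpa [hne] using h1)
    simpa using h2
  refine ⟨(Equiv.ofBijective _ h0, fun t => Equiv.ofBijective (g t)
    (Finite.injective_iff_bijective.1 (ginj t))), ?_⟩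
  funext e
  obtain ⟨⟨t, a⟩, b⟩ := e
  cases b
  · simp [colr]
  · simp [colr, hg]

theorem NN_base [Fintype C] (ρ : DM m ≃ C) : NN ρ (binc m) =
    ((Fintype.card (DM m)).factorial * ∏ t, (m t).factorial : ℕ) := by
  classical
  have e1 : NN ρ (binc m) = ∑ x : DM m × Bool → C, ∏ v : KK, sg ρ (fun i => x (binc m v i)) := by
    unfold NN
    refine Finset.sum_congr ?_ fun x _ => ?_
    · ext x; simp only [mem_univ]
    · refine Finset.prod_congr ?_ fun v _ => rfl
      ext v; simp only [mem_univ]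
  rw [e1, ← Finset.sum_of_injOn (s := (univ : Finset ((DM m ≃ C) × (∀ t, Equiv.Perm (Fin (m t))))))
    (f := fun _ => (1 : ℤ)) colr (colr_inj.injOn) (fun _ _ => mem_coe.2 (mem_univ _)) ?_ ?_]
  · rw [Finset.sum_const, Finset.card_univ, Fintype.card_prod, Fintype.card_pi,
      Fintype.card_equiv ρ]
    simp [Fintype.card_perm]
  · intro x _ hx
    by_contra h
    obtain ⟨q, hq⟩ := exists_colr ρ x h
    exact hx ⟨q, mem_coe.2 (mem_univ _), hq⟩
  · intro q _
    exact (weight_colr ρ q).symm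

theorem NN_base_not_dvd [Fintype C] (p : ℕ) (hp : p.Prime) (ρ : DM m ≃ C) (hd : Fintype.card (DM m) < p) :
    ¬ ((p : ℤ) ∣ NN ρ (binc m)) := by
  rw [NN_base, Int.natCast_dvd_natCast, hp.dvd_mul, not_or]
  refine ⟨fun h => ?_, fun h => ?_⟩
  · exact absurd (hp.dvd_factorial.1 h) (by omega)
  · obtain ⟨t, -, ht⟩ := (Prime.dvd_finsetProd_iff hp.prime _).1 h
    have h1 := hp.dvd_factorial.1 ht
    have h2 : m t ≤ Fintype.card (DM m) := by
      rw [Fintype.card_sigma]
      simp only [Fintype.card_fin]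
      exact Finset.single_le_sum (f := m) (fun _ _ => Nat.zero_le _) (mem_univ t)
    omega

end

end Pool.Agent.W862.LE
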