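import Pool.Agent.W862.LE.Lift
import Pool.Agent.W862.LE.K4
import Pool.Agent.W426.LE.EL

/-!
# Graphs on four copies of a `p`-group
-/

set_option autoImplicit false

namespace Pool.Agent.W862.LE

open Finset Pool.Agent.W426.LE

/-- first end of the pair `(t, b)` -/
def eA (t : Fin 3) (b : Bool) : KK := if b = true then some (t + 1) else none

/-- second end of the pair `(t, b)` -/
def eB (t : Fin 3) (b : Bool) : KK := if b = true then some (t + 2) else some t

lemma qA : ∀ (t : Fin 3) (b : Bool), qq t (eA t b) = b := by decide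
lemma qB : ∀ (t : Fin 3) (b : Bool), qq t (eB t b) = b := by decide
lemma AneB : ∀ (t : Fin 3) (b : Bool), eA t b ≠ eB t b := by decide
lemma AorB : ∀ (t : Fin 3) (κ : KK), κ = eA t (qq t κ) ∨ κ = eB t (qq t κ) := by decide
lemma AB_inj : ∀ (t t' : Fin 3) (b b' : Bool), eA t b = eA t' b' → eB t b = eB t' b' →
    t = t' ∧ b = b' := by decide
lemma AB_swap : ∀ (t t' : Fin 3) (b b' : Bool), eA t b = eB t' b' → eB t b = eA t' b' → False := by
  decide
lemma AB_surj : ∀ (κ κ' : KK), κ ≠ κ' → ∃ t b, (eA t b = κ ∧ eB t b = κ') ∨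
    (eA t b = κ' ∧ eB t b = κ) := by decide

section
variable {P : Type} [Group P] [Fintype P] (G : SimpleGraph (KK × P))

open Classical in
/-- connection sets -/
noncomputable def cs (κ κ' : KK) : Finset P := univ.filter (fun b => G.Adj (κ, 1) (κ', b))

lemma mem_cs (κ κ' : KK) (b : P) : b ∈ cs G κ κ' ↔ G.Adj (κ, 1) (κ', b) := by
  unfold cs; simp

variable (hinv : ∀ (a g g' : P) (κ κ' : KK), G.Adj (κ, a * g) (κ', a * g') ↔ G.Adj (κ, g) (κ', g'))
  (hind : ∀ (κ : KK) (g g' : P), ¬ G.Adj (κ, g) (κ, g'))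

include hinv in
lemma adj_iff (κ κ' : KK) (g g' : P) : G.Adj (κ, g) (κ', g') ↔ g⁻¹ * g' ∈ cs G κ κ' := by
  rw [mem_cs, ← hinv g 1 (g⁻¹ * g') κ κ']
  simp

include hinv in
lemma cs_symm_card (κ κ' : KK) : (cs G κ κ').card = (cs G κ' κ).card := by
  refine Finset.card_bij (fun b _ => b⁻¹) ?_ (fun a _ b _ h => inv_injective h) ?_
  · intro b hb
    have h1 : G.Adj (κ, 1) (κ', b) := (mem_cs G κ κ' b).1 hb
    have h2 := (adj_iff G hinv κ' κ b 1).1 h1.symm
    simpa using h2
  · intro b hb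
    have h1 : G.Adj (κ', 1) (κ, b) := (mem_cs G κ' κ b).1 hb
    have h2 := (adj_iff G hinv κ κ' b 1).1 h1.symm
    exact ⟨b⁻¹, by simpa using h2, inv_inv b⟩

include hind in
lemma cs_self (κ : KK) : (cs G κ κ).card = 0 := by
  rw [Finset.card_eq_zero, Finset.eq_empty_iff_forall_notMem]
  exact fun b hb => hind κ 1 b ((mem_cs G κ κ b).1 hb)

open Classical in
lemma deg_sum (κ : KK) : G.degree (κ, 1) = ∑ κ' : KK, (cs G κ κ').card := by
  rw [← SimpleGraph.card_neighborFinset_eq_degree]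
  have h1 : G.neighborFinset (κ, 1) = univ.filter (fun w => G.Adj (κ, 1) w) := by
    ext w; simp
  rw [h1, Finset.card_filter, Fintype.sum_prod_type]
  refine Finset.sum_congr rfl fun κ' _ => ?_
  unfold cs
  rw [Finset.card_filter]

include hinv hind in
open Classical in
lemma cs_true (d : ℕ) (hd : ∀ v, G.degree v = d) (t : Fin 3) :
    (cs G (some (t + 1)) (some (t + 2))).card = (cs G none (some t)).card := by
  have e0 := deg_sum G none
  have e1 := deg_sum G (some 0)
  have e2 := deg_sum G (some 1)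
  have e3 := deg_sum G (some 2)
  rw [hd] at e0 e1 e2 e3
  rw [Fintype.sum_option, Fin.sum_univ_three] at e0 e1 e2 e3
  have s0 := cs_self G hind none
  have s1 := cs_self G hind (some 0)
  have s2 := cs_self G hind (some 1)
  have s3 := cs_self G hind (some 2)
  have y0 := cs_symm_card G hinv none (some 0)
  have y1 := cs_symm_card G hinv none (some 1)
  have y2 := cs_symm_card G hinv none (some 2)
  have y3 := cs_symm_card G hinv (some 0) (some 1)
  have y4 := cs_symm_card G hinv (some 0) (some 2)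
  have y5 := cs_symm_card G hinv (some 1) (some 2)
  have c0 : (0 : Fin 3) + 1 = 1 := by decide
  have c1 : (0 : Fin 3) + 2 = 2 := by decide
  have c2 : (1 : Fin 3) + 1 = 2 := by decide
  have c3 : (1 : Fin 3) + 2 = 0 := by decide
  have c4 : (2 : Fin 3) + 1 = 0 := by decide
  have c5 : (2 : Fin 3) + 2 = 1 := by decide
  fin_cases t
  · show (cs G (some (0 + 1)) (some (0 + 2))).card = (cs G none (some 0)).card
    rw [c0, c1]; omega
  · show (cs G (some (1 + 1)) (some (1 + 2))).card = (cs G none (some 1)).card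
    rw [c2, c3]; omega
  · show (cs G (some (2 + 1)) (some (2 + 2))).card = (cs G none (some 2)).card
    rw [c4, c5]; omega

include hinv hind in
open Classical in
theorem four_aux (p : ℕ) [Fact p.Prime] (hP : IsPGroup p P) (d : ℕ) (hd : ∀ v, G.degree v = d)
    (hdp : d < p) : EL.EL G d := by
  set m : Fin 3 → ℕ := fun t => (cs G none (some t)).card with hm
  have hcard : ∀ (t : Fin 3) (b : Bool), (cs G (eA t b) (eB t b)).card = m t := by
    intro t b
    cases b
    · rfl
    · exact cs_true G hinv hind d hd t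
  have hcard' : ∀ (t : Fin 3) (b : Bool), Fintype.card (cs G (eA t b) (eB t b)) = m t := by
    intro t b; rw [Fintype.card_coe]; exact hcard t b
  let ε : ∀ (t : Fin 3) (b : Bool), Fin (m t) ≃ cs G (eA t b) (eB t b) := fun t b =>
    (Fintype.equivFinOfCardEq (hcard' t b)).symm
  have hsum : Fintype.card (DM m) = d := by
    rw [Fintype.card_sigma]
    simp only [Fintype.card_fin]
    have e0 := deg_sum G none
    rw [hd, Fintype.sum_option, cs_self G hind none, zero_add] at e0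
    exact e0.symm
  let vv : ∀ t : Fin 3, Bool → Fin (m t) → P := fun t b i => ((ε t b i : cs G _ _) : P)
  let β : KK → DM m → P := fun κ i =>
    if κ = eA i.1 (qq i.1 κ) then 1 else (vv i.1 (qq i.1 κ) i.2)⁻¹
  have hmem : ∀ e : (DM m × Bool) × P,
      s((eA e.1.1.1 e.1.2, e.2), (eB e.1.1.1 e.1.2, e.2 * vv e.1.1.1 e.1.2 e.1.1.2))
        ∈ G.edgeSet := by
    intro e
    rw [SimpleGraph.mem_edgeSet, adj_iff G hinv]
    rw [inv_mul_cancel_left]
    exact (ε e.1.1.1 e.1.2 e.1.1.2).2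
  let ψ0 : (DM m × Bool) × P → G.edgeSet := fun e => ⟨_, hmem e⟩
  have hinj : Function.Injective ψ0 := by
    rintro ⟨⟨⟨t, i⟩, b⟩, h⟩ ⟨⟨⟨t', i'⟩, b'⟩, h'⟩ heq
    have h1 := congrArg Subtype.val heq
    simp only [ψ0] at h1
    rw [Sym2.eq_iff] at h1
    rcases h1 with ⟨h1, h2⟩ | ⟨h1, h2⟩
    · have a1 := congrArg Prod.fst h1
      have a2 := congrArg Prod.snd h1
      have a3 := congrArg Prod.fst h2
      have a4 := congrArg Prod.snd h2
      simp only at a1 a2 a3 a4
      obtain ⟨rfl, rfl⟩ := AB_inj t t' b b' a1 a3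
      subst a2
      have a5 := mul_left_cancel a4
      have a6 := (ε t b).injective (Subtype.ext a5)
      rw [a6]
    · exact (AB_swap t t' b b' (congrArg Prod.fst h1) (congrArg Prod.fst h2)).elim
  have hsurj : Function.Surjective ψ0 := by
    rintro ⟨e, he⟩
    induction e using Sym2.ind with
    | _ u v =>
      obtain ⟨κ, g⟩ := u
      obtain ⟨κ', g'⟩ := v
      rw [SimpleGraph.mem_edgeSet] at he
      have hne : κ ≠ κ' := by
        rintro rfl
        exact hind κ g g' he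
      obtain ⟨t, b, ⟨rfl, rfl⟩ | ⟨rfl, rfl⟩⟩ := AB_surj κ κ' hne
      · refine ⟨((⟨t, (ε t b).symm ⟨g⁻¹ * g', (adj_iff G hinv _ _ _ _).1 he⟩⟩, b), g), ?_⟩
        refine Subtype.ext ?_
        simp [ψ0, vv]
      · refine ⟨((⟨t, (ε t b).symm ⟨g'⁻¹ * g, (adj_iff G hinv _ _ _ _).1 he.symm⟩⟩, b), g'), ?_⟩
        refine Subtype.ext ?_
        simp [ψ0, vv, Sym2.eq_swap]
  let ψ : (DM m × Bool) × P ≃ G.edgeSet := Equiv.ofBijective ψ0 ⟨hinj, hsurj⟩
  have hN : NN (Equiv.refl (DM m)) (linc (binc m) β) ≠ 0 :=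
    lift_ne_zero p hP _ _ _ (NN_base_not_dvd p Fact.out _ (by rw [hsum]; exact hdp))
  rw [← hsum]
  refine EL.sGRE (KK × P) ((DM m × Bool) × P) (DM m) (DM m) (Equiv.refl _) (linc (binc m) β) G ψ
    ?_ ?_ ?_ hN
  · rintro ⟨κ, g⟩ ⟨t, i⟩
    show (κ, g) ∈ s((eA t (qq t κ), g * β κ ⟨t, i⟩),
      (eB t (qq t κ), g * β κ ⟨t, i⟩ * vv t (qq t κ) i))
    rw [Sym2.mem_iff]
    by_cases h : κ = eA t (qq t κ)
    · left
      have hb : β κ ⟨t, i⟩ = 1 := by simp only [β]; rw [if_pos h]
      rw [hb, mul_one, ← h]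
    · right
      have h' : κ = eB t (qq t κ) := (AorB t κ).resolve_left h
      have hb : β κ ⟨t, i⟩ = (vv t (qq t κ) i)⁻¹ := by simp only [β]; rw [if_neg h]
      rw [hb, inv_mul_cancel_right]
      exact Prod.ext h' rfl
  · rintro ⟨κ, g⟩ ⟨⟨⟨t, i⟩, b⟩, h⟩ hv
    have hv' : (κ, g) ∈ s((eA t b, h), (eB t b, h * vv t b i)) := hv
    rw [Sym2.mem_iff] at hv'
    refine ⟨⟨t, i⟩, ?_⟩
    show ((⟨t, i⟩, qq t κ), g * β κ ⟨t, i⟩) = (((⟨t, i⟩ : DM m), b), h)
    rcases hv' with hv' | hv'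
    · obtain ⟨rfl, rfl⟩ := Prod.mk.inj hv'
      have hb : β (eA t b) ⟨t, i⟩ = 1 := by
        simp only [β]; rw [if_pos (by rw [qA])]
      rw [hb, mul_one, qA]
    · obtain ⟨rfl, rfl⟩ := Prod.mk.inj hv'
      have hb : β (eB t b) ⟨t, i⟩ = (vv t b i)⁻¹ := by
        have e1 : qq t (eB t b) = b := qB t b
        have e2 : ¬ (eB t b = eA t (qq t (eB t b))) := by
          rw [e1]; exact (AneB t b).symm
        show (if eB t b = eA t (qq t (eB t b)) then 1 else (vv t (qq t (eB t b)) i)⁻¹) = _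
        rw [if_neg e2, e1]
      rw [hb, mul_inv_cancel_right, qB]
  · rintro v i j hij
    exact congrArg (fun z => z.1.1) hij

end

end Pool.Agent.W862.LE
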