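import Pool.Agent.W862.LE.Abs

/-!
# Invariant 1-factorizations of graphs
-/

set_option autoImplicit false

namespace Pool.Agent.W862.LE

open Finset Pool.Agent.W426.LE

lemma natcard_of (α : Type) (i : Fintype α) (n : ℕ) (h : @Fintype.card α i = n) :
    Nat.card α = n := by
  rw [← h]
  exact Nat.card_eq_fintype_card

section
variable {V P : Type} [Group P] [MulAction P V] (G : SimpleGraph V)

/-- the image of an edge under an automorphism -/
def eact (hG : ∀ (a : P) (u v : V), G.Adj (a • u) (a • v) ↔ G.Adj u v) (a : P) (e : G.edgeSet) :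
    G.edgeSet :=
  ⟨Sym2.map (fun v => a • v) e, by
    obtain ⟨e, he⟩ := e
    induction e using Sym2.ind with
    | _ u v => exact (hG a u v).2 he⟩

/-- the action on the edges -/
@[reducible]
def eAct (hG : ∀ (a : P) (u v : V), G.Adj (a • u) (a • v) ↔ G.Adj u v) : MulAction P G.edgeSet where
  smul := eact G hG
  one_smul := fun e => by
    refine Subtype.ext ?_
    show Sym2.map (fun v => (1 : P) • v) (e : Sym2 V) = e
    simp
  mul_smul := fun a b e => by
    refine Subtype.ext ?_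
    show Sym2.map (fun v => (a * b) • v) (e : Sym2 V) =
      Sym2.map (fun v => a • v) (Sym2.map (fun v => b • v) (e : Sym2 V))
    rw [Sym2.map_map]
    congr 1
    funext v
    exact mul_smul a b v

variable [Fintype V]

open Classical in
/-- local enumerations of the edges -/
lemma exists_inc {d : ℕ} (hd : ∀ v, G.degree v = d) : ∃ inc : V → Fin d → G.edgeSet,
    (∀ v i, v ∈ (inc v i : Sym2 V)) ∧
    (∀ v (e : G.edgeSet), v ∈ (e : Sym2 V) → ∃ i, inc v i = e) ∧
    ∀ v, Function.Injective (inc v) := by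
  have h1 : ∀ v, Fintype.card (G.incidenceSet v) = d := fun v => by
    rw [SimpleGraph.card_incidenceSet_eq_degree, hd]
  let ε : ∀ v, Fin d ≃ G.incidenceSet v := fun v => (Fintype.equivFinOfCardEq (h1 v)).symm
  refine ⟨fun v i => ⟨(ε v i).1, (ε v i).2.1⟩, fun v i => (ε v i).2.2, ?_, ?_⟩
  · intro v e hv
    refine ⟨(ε v).symm ⟨e.1, e.2, hv⟩, ?_⟩
    refine Subtype.ext ?_
    show ((ε v ((ε v).symm ⟨e.1, e.2, hv⟩) : G.incidenceSet v) : Sym2 V) = e
    rw [Equiv.apply_symm_apply]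
  · intro v i j hij
    have h5 := congrArg (fun z : G.edgeSet => (z : Sym2 V)) hij
    exact (ε v).injective (Subtype.ext h5)

variable {D : Type} [Fintype D] (inc : V → D → G.edgeSet)
  (h1 : ∀ v i, v ∈ (inc v i : Sym2 V))
  (h2 : ∀ v (e : G.edgeSet), v ∈ (e : Sym2 V) → ∃ i, inc v i = e)
  (h3 : ∀ v, Function.Injective (inc v))
  (hG : ∀ (a : P) (u v : V), G.Adj (a • u) (a • v) ↔ G.Adj u v)

omit [Fintype V] in
include h1 h2 h3 in
lemma exists_tau (a : P) (v : V) : ∃ τ : Equiv.Perm D, ∀ i,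
    inc (a • v) (τ i) = eact G hG a (inc v i) := by
  have hh : ∀ i, ∃ j, inc (a • v) j = eact G hG a (inc v i) := by
    intro i
    refine h2 _ _ ?_
    show a • v ∈ Sym2.map (fun v => a • v) (inc v i : Sym2 V)
    exact Sym2.mem_map.2 ⟨v, h1 v i, rfl⟩
  choose g hg using hh
  have ginj : Function.Injective g := by
    intro i j hij
    have e1 : eact G hG a (inc v i) = eact G hG a (inc v j) := by rw [← hg, ← hg, hij]
    have e2 : Sym2.map (fun v => a • v) (inc v i : Sym2 V) =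
        Sym2.map (fun v => a • v) (inc v j : Sym2 V) := congrArg Subtype.val e1
    exact h3 v (Subtype.ext (Sym2.map.injective (MulAction.injective a) e2))
  exact ⟨Equiv.ofBijective g (Finite.injective_iff_bijective.1 ginj), hg⟩

include h1 h2 h3 in
theorem gr_NN [Fintype P] (v0 : V) (p : ℕ) [Fact p.Prime] (hP : IsPGroup p P)
    (S : Finset (G.edgeSet → D))
    (hS : ∀ x : G.edgeSet → D, Abs.Prp inc x → (x ∈ S ↔ ((∀ i, x (inc v0 i) = i) ∧
      ∀ a : P, ∃ σ : Equiv.Perm D, ∀ e, x (eact G hG a e) = σ (x e))))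
    (h : ¬ ((p : ℤ) ∣ ∑ x ∈ S, Abs.wt (Equiv.refl D) inc x)) :
    ∀ _ : Fintype G.edgeSet, NN (Equiv.refl D) inc ≠ 0 := by
  intro _
  let _ : MulAction P G.edgeSet := eAct G hG
  refine Abs.unl_NN' (Equiv.refl D) inc v0 ?_ (fun a v => exists_tau G inc h1 h2 h3 hG a v) p hP S
    (fun x hx => hS x hx) h
  intro e
  have h5 := Pool.Agent.W15.LEGR.card_two inc G (Equiv.refl _) (fun v i => h1 v i)
    (fun v e hv => h2 v e hv) h3 e
  exact natcard_of _ _ _ h5

include h1 h2 h3 in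
theorem gr_EL [Fintype P] (v0 : V) (p : ℕ) [Fact p.Prime] (hP : IsPGroup p P)
    (S : Finset (G.edgeSet → D))
    (hS : ∀ x : G.edgeSet → D, Abs.Prp inc x → (x ∈ S ↔ ((∀ i, x (inc v0 i) = i) ∧
      ∀ a : P, ∃ σ : Equiv.Perm D, ∀ e, x (eact G hG a e) = σ (x e))))
    (h : ¬ ((p : ℤ) ∣ ∑ x ∈ S, Abs.wt (Equiv.refl D) inc x)) :
    EL.EL G (Fintype.card D) := by
  classical
  exact EL.sGRE V G.edgeSet D D (Equiv.refl _) inc G (Equiv.refl _)
    (fun v i => h1 v i) (fun v e hv => h2 v e hv) h3 (gr_NN G inc h1 h2 h3 hG v0 p hP S hS h _)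

/-- exactly one invariant 1-factorization -/
theorem uniq_EL [Fintype P] (hV : Nonempty V) (p : ℕ) [Fact p.Prime] (hP : IsPGroup p P) (d : ℕ)
    (hd : ∀ v, (G.neighborSet v).ncard = d)
    (x0 : G.lineGraph.Coloring (Fin d))
    (hx0 : ∀ a : P, ∃ σ : Equiv.Perm (Fin d), ∀ e, x0 (eact G hG a e) = σ (x0 e))
    (hu : ∀ x : G.lineGraph.Coloring (Fin d),
      (∀ a : P, ∃ σ : Equiv.Perm (Fin d), ∀ e, x (eact G hG a e) = σ (x e)) →
        ∃ σ : Equiv.Perm (Fin d), ∀ e, x e = σ (x0 e)) : EL.EL G d := by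
  classical
  obtain ⟨v0⟩ := hV
  have hd' : ∀ v, G.degree v = d := by
    intro v
    rw [← hd v, ← SimpleGraph.card_neighborSet_eq_degree, Set.ncard_eq_toFinset_card',
      Set.toFinset_card]
  obtain ⟨inc, h1, h2, h3⟩ := exists_inc G hd'
  have hprp : ∀ x : G.lineGraph.Coloring (Fin d), Abs.Prp inc x := by
    intro x v
    refine Finite.injective_iff_bijective.1 ?_
    intro i j hij
    by_contra hne
    refine x.valid ?_ hij
    rw [SimpleGraph.lineGraph_adj_iff_exists]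
    exact ⟨fun h => hne (h3 v h), v, h1 v i, h1 v j⟩
  have hcol : ∀ x : G.edgeSet → Fin d, Abs.Prp inc x → ∃ c : G.lineGraph.Coloring (Fin d), ⇑c = x := by
    intro x hx
    refine ⟨SimpleGraph.Coloring.mk x ?_, rfl⟩
    intro e e' hadj
    rw [SimpleGraph.lineGraph_adj_iff_exists] at hadj
    obtain ⟨hne, v, hv, hv'⟩ := hadj
    obtain ⟨i, rfl⟩ := h2 v e hv
    obtain ⟨j, rfl⟩ := h2 v e' hv'
    intro h
    exact hne (congrArg (inc v) ((hx v).1 h))
  obtain ⟨σ0, hσ0⟩ := Abs.nrm_spec (Equiv.refl (Fin d)) inc v0 x0 (hprp x0)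
  have h5 : EL.EL G (Fintype.card (Fin d)) := by
    refine gr_EL G inc h1 h2 h3 hG v0 p hP
      {(Abs.nrm (Equiv.refl (Fin d)) inc v0 x0 (hprp x0)).1} ?_ ?_
    · intro x hp
      rw [mem_singleton]
      constructor
      · rintro rfl
        refine ⟨(Abs.nrm (Equiv.refl (Fin d)) inc v0 x0 (hprp x0)).2.2, fun a => ?_⟩
        obtain ⟨σ, hσ⟩ := hx0 a
        refine ⟨σ0 * σ * σ0⁻¹, fun e => ?_⟩
        rw [hσ0, hσ0, hσ]
        simp
      · rintro ⟨hx1, hx2⟩
        obtain ⟨c, rfl⟩ := hcol x hp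
        obtain ⟨σ, hσ⟩ := hu c hx2
        have h8 := Abs.nrm_unique (Equiv.refl (Fin d)) inc v0 x0 (hprp x0)
          ⟨c, hp, hx1⟩ ⟨σ, hσ⟩
        exact (congrArg Subtype.val h8).symm
    · rw [Finset.sum_singleton]
      intro hdvd
      have hun := Abs.wt_unit (Equiv.refl (Fin d)) inc _
        (Abs.nrm (Equiv.refl (Fin d)) inc v0 x0 (hprp x0)).2.1
      have h6 := isUnit_of_dvd_unit hdvd hun
      rw [Int.isUnit_iff_natAbs_eq, Int.natAbs_natCast] at h6
      exact (Fact.out : p.Prime).one_lt.ne' h6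
  rwa [Fintype.card_fin] at h5

end

end Pool.Agent.W862.LE
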