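import Pool.Agent.W862.LE.FR
import Pool.Agent.W862.LE.Gr

/-!
# The complete graph on `p + 1` vertices and the removal of a perfect matching
-/

set_option autoImplicit false

namespace Pool.Agent.W862.LE.KP

open Finset Pool.Agent.W426.LE

section
variable {p : ℕ} [Fact p.Prime] {I : Type} [Fintype I] (ρ : Option (I × Bool) ≃ ZMod p)
  (g : I → ZMod p)

/-- edges: `inl u` joins the point at infinity and `u`, `inr (i, u)` joins `u` and `u + g i` -/
abbrev KE (p : ℕ) (I : Type) := ZMod p ⊕ (I × ZMod p)

/-- the edges at the vertices -/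
def kinc : Option (ZMod p) → Option (I × Bool) → KE p I
  | none, q => .inl (ρ q)
  | some u, none => .inl u
  | some u, some (i, true) => .inr (i, u)
  | some u, some (i, false) => .inr (i, u - g i)

abbrev PP (p : ℕ) := Multiplicative (ZMod p)

/-- translation of the points -/
def aV (a : PP p) : Option (ZMod p) → Option (ZMod p)
  | none => none
  | some u => some (u + Multiplicative.toAdd a)

/-- translation of the edges -/
def aE (a : PP p) : KE p I → KE p I
  | .inl u => .inl (u + Multiplicative.toAdd a)
  | .inr (i, u) => .inr (i, u + Multiplicative.toAdd a)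

@[reducible]
def actV : MulAction (PP p) (Option (ZMod p)) where
  smul := aV
  one_smul v := by
    cases v with
    | none => rfl
    | some u => exact congrArg some (add_zero u)
  mul_smul a b v := by
    cases v with
    | none => rfl
    | some u =>
      refine congrArg some ?_
      show u + (Multiplicative.toAdd a + Multiplicative.toAdd b) =
        u + Multiplicative.toAdd b + Multiplicative.toAdd a
      ring

@[reducible]
def actE : MulAction (PP p) (KE p I) where
  smul := aE
  one_smul e := by
    rcases e with u | ⟨i, u⟩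
    · exact congrArg Sum.inl (add_zero u)
    · exact congrArg (fun z => Sum.inr (i, z)) (add_zero u)
  mul_smul a b e := by
    rcases e with u | ⟨i, u⟩
    · refine congrArg Sum.inl ?_
      show u + (Multiplicative.toAdd a + Multiplicative.toAdd b) =
        u + Multiplicative.toAdd b + Multiplicative.toAdd a
      ring
    · refine congrArg (fun z => Sum.inr (i, z)) ?_
      show u + (Multiplicative.toAdd a + Multiplicative.toAdd b) =
        u + Multiplicative.toAdd b + Multiplicative.toAdd a
      ring

lemma ktau (a : PP p) (v : Option (ZMod p)) : ∃ τ : Equiv.Perm (Option (I × Bool)), ∀ q,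
    kinc ρ g (aV a v) (τ q) = aE a (kinc ρ g v q) := by
  cases v with
  | none =>
    refine ⟨(ρ.trans (Equiv.addRight (Multiplicative.toAdd a))).trans ρ.symm, fun q => ?_⟩
    show (Sum.inl (ρ (ρ.symm (ρ q + Multiplicative.toAdd a))) : KE p I) = _
    rw [Equiv.apply_symm_apply]
    rfl
  | some u =>
    refine ⟨1, fun q => ?_⟩
    rcases q with _ | ⟨i, _ | _⟩
    · rfl
    · show (Sum.inr (i, u + Multiplicative.toAdd a - g i) : KE p I) =
        Sum.inr (i, u - g i + Multiplicative.toAdd a)
      rw [add_sub_right_comm]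
    · rfl

/-- the invariant colourings -/
def xc (c : I → ZMod p) : KE p I → ZMod p
  | .inl u => u
  | .inr (i, u) => c i + u

lemma xc_some (c : I → ZMod p) (u : ZMod p) (q : Option (I × Bool)) :
    xc c (kinc ρ g (some u) q) = ff g c q + u := by
  rcases q with _ | ⟨i, _ | _⟩
  · show u = 0 + u
    ring
  · show c i + (u - g i) = c i - g i + u
    ring
  · rfl

open Classical in
lemma wt_xc (hp2 : p ≠ 2) (c : I → ZMod p) : Abs.wt ρ (kinc ρ g) (xc c) = sg ρ (ff g c) := by
  unfold Abs.wt
  rw [Fintype.prod_option]
  have e1 : sg ρ (fun i => xc c (kinc ρ g none i)) = 1 := by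
    have : (fun i => xc c (kinc ρ g none i)) = (ρ : Option (I × Bool) → ZMod p) := rfl
    rw [this, sg_equiv, Equiv.self_trans_symm]
    simp
  rw [e1, one_mul]
  have hodd : Odd p := (Fact.out : p.Prime).odd_of_ne_two hp2
  have e2 : ∀ u : ZMod p, sg ρ (fun i => xc c (kinc ρ g (some u) i)) = sg ρ (ff g c) := by
    intro u
    have e3 : (fun i => xc c (kinc ρ g (some u) i)) = fun i => (Equiv.addRight u) (ff g c i) :=
      funext fun q => xc_some ρ g c u q
    have hpow : (Equiv.addRight u : Equiv.Perm (ZMod p)) ^ p = 1 := by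
      refine Equiv.ext fun z => ?_
      have h5 : ∀ n : ℕ, ((Equiv.addRight u : Equiv.Perm (ZMod p)) ^ n) z = z + n * u := by
        intro n
        induction n with
        | zero => simp
        | succ n ih =>
          rw [pow_succ', Equiv.Perm.mul_apply, ih]
          show z + n * u + u = _
          push_cast
          ring
      rw [h5]
      simp
    have e4 : Equiv.Perm.sign (Equiv.addRight u : Equiv.Perm (ZMod p)) = 1 :=
      sign_of_pow _ p hodd hpow
    have e5 := sg_perm_comp ρ (ff g c) (Equiv.addRight u : Equiv.Perm (ZMod p))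
    have hs' : ∀ (i1 i2 : DecidableEq (ZMod p)) (τ : Equiv.Perm (ZMod p)),
        @Equiv.Perm.sign _ i1 _ τ = @Equiv.Perm.sign _ i2 _ τ := fun i1 i2 τ => by
      rw [Subsingleton.elim i1 i2]
    refine ((congrArg (sg ρ) e3).trans e5).trans ?_
    rw [(hs' _ _ _).trans e4, Units.val_one, one_mul]
  rw [Finset.prod_congr rfl fun u _ => e2 u, Finset.prod_const, Finset.card_univ, ZMod.card]
  by_cases hb : Function.Bijective (ff g c)
  · rcases sg_eq ρ _ hb with h | h
    · rw [h, one_pow]
    · rw [h, hodd.neg_one_pow]
  · rw [sg_of_not ρ _ hb, zero_pow (Fact.out : p.Prime).ne_zero]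

/-- the signed number of 1-factorizations of `K_{p+1}` is not zero -/
theorem kNN (hp2 : p ≠ 2)
    (h2 : ∀ e, Nat.card {q : Option (ZMod p) × Option (I × Bool) // kinc ρ g q.1 q.2 = e} = 2)
    (hg : ∀ i, g i ≠ 0) : NN ρ (kinc ρ g) ≠ 0 := by
  classical
  have hP : IsPGroup p (PP p) := by
    refine IsPGroup.of_card (n := 1) ?_
    rw [pow_one]
    show Nat.card (ZMod p) = p
    rw [Nat.card_eq_fintype_card, ZMod.card]
  have hxinj : Function.Injective (fun c : I → ZMod p => xc (p := p) c) := by
    intro c c' h
    funext i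
    have h5 := congrFun h (.inr (i, 0))
    have h6 : c i + 0 = c' i + 0 := h5
    simpa using h6
  letI : MulAction (PP p) (Option (ZMod p)) := actV
  letI : MulAction (PP p) (KE p I) := actE
  refine Abs.unl_NN' ρ (kinc ρ g) none h2 (ktau ρ g) p hP
    (univ.image (fun c : I → ZMod p => xc (p := p) c)) ?_ ?_
  · intro x _
    rw [mem_image]
    constructor
    · rintro ⟨c, -, rfl⟩
      refine ⟨fun q => rfl, fun a => ⟨Equiv.addRight (Multiplicative.toAdd a), fun e => ?_⟩⟩
      rcases e with u | ⟨i, u⟩
      · rfl
      · show c i + (u + Multiplicative.toAdd a) = c i + u + Multiplicative.toAdd a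
        ring
    · rintro ⟨hx1, hx2⟩
      have hx1' : ∀ u, x (.inl u) = u := by
        intro u
        have h5 := hx1 (ρ.symm u)
        have h6 : x (.inl (ρ (ρ.symm u))) = ρ (ρ.symm u) := h5
        rwa [Equiv.apply_symm_apply] at h6
      refine ⟨fun i => x (.inr (i, 0)), mem_univ _, ?_⟩
      funext e
      rcases e with u | ⟨i, u⟩
      · exact (hx1' u).symm
      · obtain ⟨σ, hσ⟩ := hx2 (Multiplicative.ofAdd u)
        have h7 : ∀ w, σ w = w + u := by
          intro w
          have h8 : x (.inl (w + u)) = σ (x (.inl w)) := hσ (.inl w)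
          rw [hx1', hx1'] at h8
          exact h8.symm
        have h9 : x (.inr (i, 0 + u)) = σ (x (.inr (i, 0))) := hσ (.inr (i, 0))
        rw [h7, zero_add] at h9
        show x (.inr (i, 0)) + u = x (.inr (i, u))
        exact h9.symm
  · rw [Finset.sum_image fun c _ c' _ h => hxinj h]
    rw [Finset.sum_congr rfl fun c _ => wt_xc ρ g hp2 c]
    have hYA := Pool.Agent.W970.LE.YA.main p hp2 I ρ g
    have hYB := Pool.Agent.W154.LEYB.main p hp2 I ρ
    intro hdvd
    have h5 : ((YY ρ g : ℤ) : ZMod p) = 0 := by
      rw [ZMod.intCast_zmod_eq_zero_iff_dvd]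
      unfold YY
      have e9 : ∑ a : I → ZMod p, sg ρ (ff g a) = ∑ x : I → ZMod p, sg ρ (ff g x) := rfl
      refine hdvd.trans (dvd_of_eq (Finset.sum_congr ?_ fun _ _ => rfl))
      ext x
      simp only [mem_univ]
    rw [hYA] at h5
    rcases mul_eq_zero.1 h5 with h6 | h6
    · exact hYB h6
    · obtain ⟨i, -, hi⟩ := Finset.prod_eq_zero_iff.1 h6
      exact hg i hi

end

end Pool.Agent.W862.LE.KP
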