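import Pool.Agent.W862.LE.Fix
import Pool.Agent.W426.LE.Stm
import Pool.Agent.W426.LE.SG

/-!
# Signed counts of lifts by `p`-groups
-/

set_option autoImplicit false

namespace Pool.Agent.W862.LE

open Finset Pool.Agent.W426.LE

/-- the incidence structure of the lift of `inc` with the voltages `β` -/
def linc {V E D P : Type} [Mul P] (inc : V → D → E) (β : V → D → P) : V × P → D → E × P :=
  fun v i => (inc v.1 i, v.2 * β v.1 i)

/-- the signed count of a lift by a `p`-group is congruent to the signed count of the base -/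
theorem lift_mod (p : ℕ) [Fact p.Prime] {V E D C P : Type} [Fintype V] [Fintype E] [Fintype D]
    [Fintype C] [Group P] [Fintype P] (hP : IsPGroup p P) (ρ : D ≃ C) (inc : V → D → E)
    (β : V → D → P) :
    ((NN ρ (linc inc β) : ℤ) : ZMod p) = ((NN ρ inc : ℤ) : ZMod p) := by
  classical
  obtain ⟨k, hk⟩ := IsPGroup.iff_card.1 hP
  rw [Nat.card_eq_fintype_card] at hk
  let A : MulAction P (E × P → C) :=
    { smul := fun a x q => x (q.1, a⁻¹ * q.2)
      one_smul := fun x => by
        funext q
        show x (q.1, (1 : P)⁻¹ * q.2) = x q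
        simp
      mul_smul := fun a b x => by
        funext q
        show x (q.1, (a * b)⁻¹ * q.2) = x (q.1, b⁻¹ * (a⁻¹ * q.2))
        simp [mul_assoc] }
  have hsm : ∀ (a : P) (x : E × P → C) (q : E × P), (a • x) q = x (q.1, a⁻¹ * q.2) :=
    fun _ _ _ => rfl
  have e1 : ((NN ρ (linc inc β) : ℤ) : ZMod p) = ∑ x : E × P → C,
      ((∏ v : V × P, sg ρ (fun i => x (linc inc β v i)) : ℤ) : ZMod p) := by
    unfold NN
    rw [Int.cast_sum]
    refine Finset.sum_congr ?_ fun x _ => rfl
    ext x
    simp only [mem_univ]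
  rw [e1, sum_fixed' p hP _ ?_ ((univ : Finset (E → C)).image (fun y q => y q.1)) ?_]
  · have e3 : ((NN ρ inc : ℤ) : ZMod p) = ∑ y : E → C,
          ((∏ v : V, sg ρ (fun i => y (inc v i)) : ℤ) : ZMod p) := by
      unfold NN
      rw [Int.cast_sum]
    rw [Finset.sum_image, e3]
    · refine Finset.sum_congr rfl fun y _ => ?_
      rw [Int.cast_prod, Int.cast_prod, Fintype.prod_prod_type]
      refine Finset.prod_congr rfl fun v _ => ?_
      simp only [linc]
      rw [Finset.prod_const, Finset.card_univ, hk, ZMod.pow_card_pow]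
    · intro y _ y' _ h
      funext e
      exact congrFun h (e, 1)
  · intro g x
    congr 1
    refine Fintype.prod_equiv (Equiv.prodCongr (Equiv.refl V) (Equiv.mulLeft g⁻¹)) _ _ ?_
    rintro ⟨v, h⟩
    congr 1
    funext i
    rw [hsm]
    simp only [linc, Equiv.prodCongr_apply, Prod.map, Equiv.refl_apply, Equiv.coe_mulLeft]
    rw [mul_assoc]
  · intro x
    rw [mem_image]
    constructor
    · rintro ⟨y, -, rfl⟩ g
      funext q
      rw [hsm]
    · intro h
      refine ⟨fun e => x (e, 1), mem_univ _, ?_⟩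
      funext q
      have := congrFun (h q.2⁻¹) (q.1, 1)
      rw [hsm] at this
      simpa using this.symm

theorem lift_ne_zero (p : ℕ) [Fact p.Prime] {V E D C P : Type} [Fintype V] [Fintype E] [Fintype D]
    [Fintype C] [Group P] [Fintype P] (hP : IsPGroup p P) (ρ : D ≃ C) (inc : V → D → E)
    (β : V → D → P) (h : ¬ ((p : ℤ) ∣ NN ρ inc)) : NN ρ (linc inc β) ≠ 0 := by
  intro h0
  have h1 := lift_mod p hP ρ inc β
  rw [h0, Int.cast_zero] at h1
  exact h ((ZMod.intCast_zmod_eq_zero_iff_dvd _ p).1 h1.symm)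

end Pool.Agent.W862.LE
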